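import Pool.Agent.Helper33.PH.Horo

set_option autoImplicit false

namespace Pool.Agent.Helper33.PH

open FreeGroup

/-- the free group of rank two -/
abbrev FF := FreeGroup Bool

/-- left multiplication by the generator `0` -/
def permS : Equiv.Perm VV where
  toFun x := (of 0 * x.1, x.2)
  invFun x := ((of 0)⁻¹ * x.1, x.2)
  left_inv x := by simp
  right_inv x := by simp

/-- the dilation -/
def permT : Equiv.Perm VV where
  toFun x := (shift 1 x.1, x.2 + 1)
  invFun x := (shift (-1) x.1, x.2 - 1)
  left_inv x := by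
    apply Prod.ext
    · change shift (-1) (shift 1 x.1) = x.1
      rw [shift_shift, neg_add_cancel, shift_zero]
    · change x.2 + 1 - 1 = x.2
      ring
  right_inv x := by
    apply Prod.ext
    · change shift 1 (shift (-1) x.1) = x.1
      rw [shift_shift, add_neg_cancel, shift_zero]
    · change x.2 - 1 + 1 = x.2
      ring

/-- the action of the free group on the vertex set -/
def rhoV : FF →* Equiv.Perm VV := FreeGroup.lift (fun b => if b then permT else permS)

theorem rhoV_s (x : VV) : rhoV (of false) x = (of 0 * x.1, x.2) := by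
  unfold rhoV
  rw [lift_apply_of]
  rfl

theorem rhoV_t (x : VV) : rhoV (of true) x = (shift 1 x.1, x.2 + 1) := by
  unfold rhoV
  rw [lift_apply_of]
  rfl

theorem rhoV_s_inv (x : VV) : rhoV (of false)⁻¹ x = ((of 0)⁻¹ * x.1, x.2) := by
  rw [_root_.map_inv]
  unfold rhoV
  rw [lift_apply_of]
  rfl

theorem rhoV_t_inv (x : VV) : rhoV (of true)⁻¹ x = (shift (-1) x.1, x.2 - 1) := by
  rw [_root_.map_inv]
  unfold rhoV
  rw [lift_apply_of]
  rfl

theorem rhoV_formula (g : FF) : ∃ (n : NN) (i : ℤ), ∀ x : VV,
    rhoV g x = (n * shift i x.1, i + x.2) := by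
  induction g using FreeGroup.induction_on with
  | C1 =>
    refine ⟨1, 0, fun x => ?_⟩
    rw [_root_.map_one, shift_zero, one_mul, zero_add]
    rfl
  | of b =>
    cases b with
    | false =>
      refine ⟨of 0, 0, fun x => ?_⟩
      rw [rhoV_s, shift_zero, zero_add]
    | true =>
      refine ⟨1, 1, fun x => ?_⟩
      rw [rhoV_t, one_mul, add_comm]
  | inv_of b _ =>
    cases b with
    | false =>
      refine ⟨(of 0)⁻¹, 0, fun x => ?_⟩
      rw [rhoV_s_inv, shift_zero, zero_add]
    | true =>
      refine ⟨1, -1, fun x => ?_⟩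
      rw [rhoV_t_inv, one_mul]
      congr 1
      ring
  | mul g g' h h' =>
    obtain ⟨n, i, h⟩ := h
    obtain ⟨n', i', h'⟩ := h'
    refine ⟨n * shift i n', i + i', fun x => ?_⟩
    rw [_root_.map_mul, Equiv.Perm.mul_apply, h', h]
    simp only [_root_.map_mul, shift_shift]
    rw [mul_assoc, add_assoc]

theorem Rel_act (n : NN) (i : ℤ) {x y : VV} {m : ℕ} (h : Rel x y m) :
    Rel (n * shift i x.1, i + x.2) (n * shift i y.1, i + y.2) m := by
  obtain ⟨k, h1, h2, h3⟩ := h
  refine ⟨i + k, by simpa using h1, by simpa using h2, ?_⟩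
  simp only
  have e : (n * shift i x.1)⁻¹ * (n * shift i y.1) = shift i (x.1⁻¹ * y.1) := by
    rw [_root_.map_mul, _root_.map_inv]
    group
  rw [e, len_shift, zpow_add₀ (by norm_num)]
  have h4 : (0 : ℝ) < 2 ^ i := by positivity
  have h5 := mul_le_mul_of_nonneg_left h3 h4.le
  refine h5.trans (le_of_eq ?_)
  have : (m : ℤ) + (i + x.2) + (i + y.2) - 2 * (i + k) = (m : ℤ) + x.2 + y.2 - 2 * k := by ring
  rw [this]
  ring

theorem dV_rhoV (g : FF) (x y : VV) : dV (rhoV g x) (rhoV g y) = dV x y := by
  have key : ∀ (g : FF) (x y : VV), dV (rhoV g x) (rhoV g y) ≤ dV x y := by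
    intro g x y
    obtain ⟨n, i, h⟩ := rhoV_formula g
    rw [h, h]
    exact dV_le (Rel_act n i (Rel_dV x y))
  apply le_antisymm (key g x y)
  have := key g⁻¹ (rhoV g x) (rhoV g y)
  rw [← Equiv.Perm.mul_apply, ← Equiv.Perm.mul_apply, ← _root_.map_mul, inv_mul_cancel, _root_.map_one] at this
  exact this

/-- embedding of the infinite rank free group -/
def iot : NN →* FF := FreeGroup.lift (fun k : ℤ => of true ^ k * of false * (of true ^ k)⁻¹)

/-- inverse of the orbit map -/
def theta (x : VV) : FF := iot x.1 * of true ^ x.2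

theorem iot_shift (n : NN) : iot (shift 1 n) = of true * iot n * (of true)⁻¹ := by
  have : iot.comp (shift 1) = (MulAut.conj (of true : FF)).toMonoidHom.comp iot := by
    ext k
    simp only [MonoidHom.comp_apply, shift_of]
    unfold iot
    rw [lift_apply_of, lift_apply_of]
    simp only [MulEquiv.coe_toMonoidHom, MulAut.conj_apply]
    rw [zpow_add, zpow_one]
    group
  calc iot (shift 1 n) = (iot.comp (shift 1)) n := rfl
    _ = _ := by rw [this]; rfl

theorem theta_rhoV (g : FF) (x : VV) : theta (rhoV g x) = g * theta x := by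
  have hs : ∀ x, theta (rhoV (of false) x) = of false * theta x := by
    intro x
    rw [rhoV_s]
    unfold theta
    rw [_root_.map_mul]
    have : iot (of 0) = of false := by
      unfold iot
      rw [lift_apply_of]
      simp
    rw [this, mul_assoc]
  have ht : ∀ x, theta (rhoV (of true) x) = of true * theta x := by
    intro x
    rw [rhoV_t]
    unfold theta
    rw [iot_shift, zpow_add, zpow_one]
    group
  have key : ∀ b : Bool, ∀ x, theta (rhoV (of b) x) = of b * theta x := by
    intro b
    cases b with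
    | false => exact hs
    | true => exact ht
  induction g using FreeGroup.induction_on generalizing x with
  | C1 => rw [_root_.map_one, one_mul]; rfl
  | of b => exact key b x
  | inv_of b _ =>
    have h1 := key b (rhoV (of b)⁻¹ x)
    have h2 : rhoV (of b) (rhoV (of b)⁻¹ x) = x := by
      rw [← Equiv.Perm.mul_apply, ← _root_.map_mul, mul_inv_cancel, _root_.map_one]
      rfl
    rw [h2] at h1
    rw [h1, inv_mul_cancel_left]
  | mul g g' h h' =>
    rw [_root_.map_mul, Equiv.Perm.mul_apply, h, h', mul_assoc]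

/-- base vertex -/
def oV : VV := (1, 0)

theorem theta_oV (g : FF) : theta (rhoV g oV) = g := by
  rw [theta_rhoV]
  unfold theta oV
  simp

theorem rhoV_t_zpow (j : ℤ) (x : VV) : rhoV (of true ^ j) x = (shift j x.1, j + x.2) := by
  have hpos : ∀ (n : ℕ) (x : VV), rhoV (of true ^ (n : ℤ)) x = (shift n x.1, n + x.2) := by
    intro n
    induction n with
    | zero =>
      intro x
      simp [shift_zero]
    | succ n ih =>
      intro x
      have : (of true : FF) ^ ((n + 1 : ℕ) : ℤ) = of true ^ (n : ℤ) * of true := by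
        push_cast
        rw [zpow_add, zpow_one]
      rw [this, _root_.map_mul, Equiv.Perm.mul_apply, rhoV_t, ih]
      apply Prod.ext
      · simp only [shift_shift]
        push_cast
        rfl
      · simp only
        push_cast
        ring
  rcases Int.eq_nat_or_neg j with ⟨n, rfl | rfl⟩
  · exact hpos n x
  · have h1 := hpos n (shift (-(n : ℤ)) x.1, -(n : ℤ) + x.2)
    rw [shift_shift, add_neg_cancel, shift_zero] at h1
    simp only [add_neg_cancel_left] at h1
    have h2 : rhoV (of true ^ (-(n : ℤ))) (rhoV (of true ^ (n : ℤ))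
        (shift (-(n : ℤ)) x.1, -(n : ℤ) + x.2)) = (shift (-(n : ℤ)) x.1, -(n : ℤ) + x.2) := by
      rw [← Equiv.Perm.mul_apply, ← _root_.map_mul, ← zpow_add, neg_add_cancel, zpow_zero, _root_.map_one]
      rfl
    rw [h1] at h2
    exact h2

theorem rhoV_iot (m : NN) (x : VV) : rhoV (iot m) x = (m * x.1, x.2) := by
  have key : ∀ (k : ℤ) (x : VV), rhoV (iot (of k)) x = (of k * x.1, x.2) := by
    intro k x
    unfold iot
    rw [lift_apply_of, _root_.map_mul, _root_.map_mul, Equiv.Perm.mul_apply, Equiv.Perm.mul_apply, ← zpow_neg,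
      rhoV_t_zpow, rhoV_s, rhoV_t_zpow]
    apply Prod.ext
    · simp only [_root_.map_mul, shift_shift, add_neg_cancel, shift_zero, shift_of, add_zero]
    · simp only
      ring
  induction m using FreeGroup.induction_on generalizing x with
  | C1 => rw [_root_.map_one, _root_.map_one, one_mul]; rfl
  | of k => exact key k x
  | inv_of k _ =>
    have h1 := key k ((of k)⁻¹ * x.1, x.2)
    simp only [mul_inv_cancel_left] at h1
    have h2 : rhoV (iot (of k)⁻¹) (rhoV (iot (of k)) ((of k)⁻¹ * x.1, x.2)) =
        ((of k)⁻¹ * x.1, x.2) := by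
      rw [← Equiv.Perm.mul_apply, ← _root_.map_mul, ← _root_.map_mul, inv_mul_cancel, _root_.map_one, _root_.map_one]
      rfl
    rw [h1] at h2
    exact h2
  | mul m m' h h' =>
    rw [_root_.map_mul, _root_.map_mul, Equiv.Perm.mul_apply, h', h, mul_assoc]

theorem rhoV_theta (x : VV) : rhoV (theta x) oV = x := by
  unfold theta
  rw [_root_.map_mul, Equiv.Perm.mul_apply, rhoV_t_zpow, rhoV_iot]
  unfold oV
  simp

/-- the automorphism inverting `t` -/
def alph : FF →* FF := FreeGroup.lift (fun b => if b then (of true)⁻¹ else of false)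

theorem alph_s : alph (of false) = of false := by
  unfold alph
  rw [lift_apply_of]
  rfl

theorem alph_t : alph (of true) = (of true)⁻¹ := by
  unfold alph
  rw [lift_apply_of]
  rfl

theorem alph_alph (g : FF) : alph (alph g) = g := by
  have : alph.comp alph = MonoidHom.id FF := by
    ext b
    cases b with
    | false => simp [alph_s]
    | true => simp [alph_t]
  calc alph (alph g) = (alph.comp alph) g := rfl
    _ = g := by rw [this]; rfl

/-- the flip of the vertex set -/
def flipV (x : VV) : VV := (flip x.1, -x.2)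

theorem rhoV_alph (g : FF) (x : VV) : rhoV (alph g) (flipV x) = flipV (rhoV g x) := by
  have key : ∀ (b : Bool) (x : VV), rhoV (alph (of b)) (flipV x) = flipV (rhoV (of b) x) := by
    intro b x
    cases b with
    | false =>
      rw [alph_s, rhoV_s, rhoV_s]
      unfold flipV
      simp [flip_of]
    | true =>
      rw [alph_t, rhoV_t_inv, rhoV_t]
      unfold flipV
      simp only [flip_shift]
      apply Prod.ext
      · rfl
      · simp only
        ring
  induction g using FreeGroup.induction_on generalizing x with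
  | C1 => rw [_root_.map_one, _root_.map_one]; rfl
  | of b => exact key b x
  | inv_of b _ =>
    have h1 := key b (rhoV (of b)⁻¹ x)
    have h2 : rhoV (of b) (rhoV (of b)⁻¹ x) = x := by
      rw [← Equiv.Perm.mul_apply, ← _root_.map_mul, mul_inv_cancel, _root_.map_one]
      rfl
    rw [h2] at h1
    rw [← h1, ← Equiv.Perm.mul_apply, ← _root_.map_mul, ← _root_.map_mul, inv_mul_cancel, _root_.map_one, _root_.map_one]
    rfl
  | mul g g' h h' =>
    rw [_root_.map_mul, _root_.map_mul, Equiv.Perm.mul_apply, h', h, _root_.map_mul, Equiv.Perm.mul_apply]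

/-- action on points of the glued space -/
noncomputable instance : MulAction FF (Pt SV) where
  smul g p := ⟨rhoV g p.u, rhoV g p.v, p.t, by
    change dV _ _ ≤ 5
    rw [dV_rhoV]
    exact p.huv, p.ht0, by
    change p.t ≤ (dV _ _ : ℝ)
    rw [dV_rhoV]
    exact p.ht1⟩
  one_smul p := by
    ext1
    · change rhoV 1 p.u = p.u
      rw [_root_.map_one]; rfl
    · change rhoV 1 p.v = p.v
      rw [_root_.map_one]; rfl
    · rfl
  mul_smul g h p := by
    ext1
    · change rhoV (g * h) p.u = rhoV g (rhoV h p.u)
      rw [_root_.map_mul]; rfl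
    · change rhoV (g * h) p.v = rhoV g (rhoV h p.v)
      rw [_root_.map_mul]; rfl
    · rfl

theorem smul_u (g : FF) (p : Pt SV) : (g • p).u = rhoV g p.u := rfl
theorem smul_v (g : FF) (p : Pt SV) : (g • p).v = rhoV g p.v := rfl
theorem smul_t (g : FF) (p : Pt SV) : (g • p).t = p.t := rfl

theorem SV_d (x y : VV) : SV.d x y = dV x y := rfl

theorem rho_smul (g : FF) (p : Pt SV) (w : VV) :
    Pt.rho (g • p) (rhoV g w) = Pt.rho p w := by
  unfold Pt.rho
  simp only [smul_u, smul_v, smul_t, SV_d, dV_rhoV]

theorem D_smul (g : FF) (p q : Pt SV) : Pt.D (g • p) (g • q) = Pt.D p q := by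
  have hDV : Pt.DV (g • p) (g • q) = Pt.DV p q := by
    unfold Pt.DV
    rw [smul_u, smul_v, rho_smul, rho_smul, smul_t, SV_d, dV_rhoV, SV_d]
  unfold Pt.D
  rw [hDV, smul_u, smul_v, smul_u, smul_v, smul_t, smul_t, (rhoV g).injective.eq_iff,
    (rhoV g).injective.eq_iff]

instance : IsIsometricSMul FF (Pt SV) where
  isometry_smul g := by
    apply Isometry.of_dist_eq
    intro p q
    rw [Pt.dist_def, Pt.dist_def, D_smul]

theorem smul_gv (g : FF) (w : VV) : g • gv SV w = gv SV (rhoV g w) := by
  unfold gv
  rw [← SeparationQuotient.mk_smul]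
  rfl

theorem dist_smul_G (g : FF) (x y : GSpace SV) : dist (g • x) (g • y) = dist x y := by
  obtain ⟨p, rfl⟩ := SeparationQuotient.surjective_mk x
  obtain ⟨q, rfl⟩ := SeparationQuotient.surjective_mk y
  rw [← SeparationQuotient.mk_smul, ← SeparationQuotient.mk_smul, SeparationQuotient.dist_mk,
    SeparationQuotient.dist_mk, dist_smul]

end Pool.Agent.Helper33.PH
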