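import Pool.Agent.Helper33.PH.Bdry
import Pool.Agent.Helper33.PH.Act

set_option autoImplicit false

namespace Pool.Agent.Helper33.PH

open Filter

theorem near5 (x : GSpace SV) : ∃ w : VV, dist x (gv SV w) ≤ 5 := by
  obtain ⟨w, hw⟩ := exists_near x
  refine ⟨w, hw.trans (le_of_eq ?_)⟩
  change ((5 : ℕ) : ℝ) = 5
  norm_num

theorem dist_gvV (w w' : VV) : dist (gv SV w) (gv SV w') = (dV w w' : ℝ) := dist_gv w w'

theorem dist_near {x y a b : GSpace SV} {C : ℝ} (h : dist x a ≤ C) (h' : dist y b ≤ C) :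
    dist x y ≤ dist a b + 2 * C ∧ dist a b ≤ dist x y + 2 * C := by
  have h1 := dist_triangle4 x a b y
  have h2 := dist_triangle4 a x y b
  rw [dist_comm b y] at h1
  rw [dist_comm a x] at h2
  constructor <;> linarith

theorem hyperbolic_G : IsGromovHyperbolic (GSpace SV) := by
  refine ⟨25, fun o x y z => ?_⟩
  obtain ⟨o', ho⟩ := near5 o
  obtain ⟨x', hx⟩ := near5 x
  obtain ⟨y', hy⟩ := near5 y
  obtain ⟨z', hz⟩ := near5 z
  have h4 := dV_four x' y' z' o'
  have h4' : (dV x' z' : ℝ) + dV y' o' ≤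
      max ((dV x' y' : ℝ) + dV z' o') ((dV x' o' : ℝ) + dV y' z') + 10 := by
    exact_mod_cast h4
  have e1 := dist_near hx hz
  have e2 := dist_near hy ho
  have e3 := dist_near hx hy
  have e4 := dist_near hz ho
  have e5 := dist_near hx ho
  have e6 := dist_near hy hz
  rw [dist_gvV] at e1 e2 e3 e4 e5 e6
  unfold gromovProduct
  rw [dist_comm o x, dist_comm o y, dist_comm o z]
  rcases max_choice ((dV x' y' : ℝ) + dV z' o') ((dV x' o' : ℝ) + dV y' z') with h | h
  · rw [h] at h4'
    have := min_le_left ((dist x o + dist y o - dist x y) / 2)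
      ((dist y o + dist z o - dist y z) / 2)
    linarith
  · rw [h] at h4'
    have := min_le_right ((dist x o + dist y o - dist x y) / 2)
      ((dist y o + dist z o - dist y z) / 2)
    linarith

/-- the action of `G` on the horoball through a surjection onto the free group -/
noncomputable def horoAction {G : Type} [Group G] (f : G →* FF) (hf : Function.Surjective f) :
    HypAction G where
  X := GSpace SV
  metric := inferInstance
  action := MulAction.compHom (GSpace SV) f
  geodesic := fun x y => (GSpace.geodesic x y).geodesic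
  hyperbolic := hyperbolic_G
  isometric := fun g x y => dist_smul_G (f g) x y
  cobounded := by
    refine ⟨gv SV oV, 5, fun y => ?_⟩
    obtain ⟨w, hw⟩ := near5 y
    obtain ⟨g, hg⟩ := hf (theta w)
    refine ⟨g, ?_⟩
    change dist y (f g • gv SV oV) ≤ 5
    rw [hg, smul_gv, rhoV_theta]
    exact hw

theorem dV_vertical (n : NN) (j j' : ℤ) : (dV (n, j) (n, j') : ℤ) = |j - j'| := by
  apply le_antisymm
  · have : Rel (n, j) (n, j') (j - j').natAbs := by
      refine ⟨max j j', le_max_left _ _, le_max_right _ _, ?_⟩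
      simp only [inv_mul_cancel, len_one]
      have h1 : (((j - j').natAbs : ℕ) : ℤ) + j + j' - 2 * max j j' = 0 := by
        omega
      rw [h1]
      simp
    have h2 := dV_le this
    rw [Int.abs_eq_natAbs]
    exact_mod_cast h2
  · obtain ⟨h, h1, h2, h3⟩ := Rel_dV (n, j) (n, j')
    have h4 := coef_nonneg (len_nonneg _) h3
    simp only at h1 h2 h4
    rw [abs_le']
    constructor <;> omega

/-- the upward ray -/
noncomputable def rayUp (k : ℕ) : GSpace SV := gv SV (1, (k : ℤ))

/-- the downward ray -/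
noncomputable def rayDown (k : ℕ) : GSpace SV := gv SV (1, -(k : ℤ))

theorem dist_vertical (n : NN) (j j' : ℤ) :
    dist (gv SV (n, j)) (gv SV (n, j')) = |(j : ℝ) - j'| := by
  rw [dist_gvV]
  have := dV_vertical n j j'
  have h2 : ((dV (n, j) (n, j') : ℤ) : ℝ) = ((|j - j'| : ℤ) : ℝ) := by rw [this]
  rw [Int.cast_natCast] at h2
  rw [h2]
  push_cast
  rfl

theorem conv_up : ConvergesToInfinity rayUp := by
  apply convergesToInfinity_of_base rayUp (gv SV oV)
  rw [tendsto_iff_pairs]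
  intro C
  obtain ⟨N, hN⟩ := exists_nat_ge C
  refine ⟨N, fun i j hi hj => hN.trans ?_⟩
  simp only
  unfold gromovProduct rayUp oV
  rw [dist_vertical, dist_vertical, dist_vertical]
  have hi' : (N : ℝ) ≤ i := by exact_mod_cast hi
  have hj' : (N : ℝ) ≤ j := by exact_mod_cast hj
  have h0 : (0 : ℝ) ≤ i := Nat.cast_nonneg _
  have h0' : (0 : ℝ) ≤ j := Nat.cast_nonneg _
  push_cast
  rw [zero_sub, zero_sub, abs_neg, abs_neg, abs_of_nonneg h0, abs_of_nonneg h0']
  rcases abs_cases ((i : ℝ) - j) with h | h <;> linarith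

theorem conv_down : ConvergesToInfinity rayDown := by
  apply convergesToInfinity_of_base rayDown (gv SV oV)
  rw [tendsto_iff_pairs]
  intro C
  obtain ⟨N, hN⟩ := exists_nat_ge C
  refine ⟨N, fun i j hi hj => hN.trans ?_⟩
  simp only
  unfold gromovProduct rayDown oV
  rw [dist_vertical, dist_vertical, dist_vertical]
  have hi' : (N : ℝ) ≤ i := by exact_mod_cast hi
  have hj' : (N : ℝ) ≤ j := by exact_mod_cast hj
  have h0 : (0 : ℝ) ≤ i := Nat.cast_nonneg _
  have h0' : (0 : ℝ) ≤ j := Nat.cast_nonneg _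
  push_cast
  rw [zero_sub, zero_sub, neg_neg, neg_neg, abs_of_nonneg h0, abs_of_nonneg h0']
  rcases abs_cases (-(i : ℝ) - -j) with h | h <;> linarith

/-- every element moves the upward ray a bounded distance -/
theorem dist_up (g : FF) : ∃ C : ℝ, ∀ k : ℕ, dist (rayUp k) (g • rayUp k) ≤ C := by
  obtain ⟨n, i, h⟩ := rhoV_formula g
  obtain ⟨c, hc⟩ := exists_nat_ge (len n)
  refine ⟨((i.natAbs + c : ℕ) : ℝ), fun k => ?_⟩
  unfold rayUp
  rw [smul_gv, h, dist_gvV]
  simp only [_root_.map_one, mul_one]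
  have : Rel (1, (k : ℤ)) (n, i + k) (i.natAbs + c) := by
    refine ⟨max k (i + k), le_max_left _ _, le_max_right _ _, ?_⟩
    simp only [inv_one, one_mul]
    have h1 : (((i.natAbs + c : ℕ) : ℤ)) + k + (i + k) - 2 * max (k : ℤ) (i + k) = c := by
      omega
    rw [h1]
    have h2 : (1 : ℝ) ≤ 2 ^ (max (k : ℤ) (i + k)) :=
      one_le_zpow₀ one_le_two (by omega)
    have h3 : (0 : ℝ) ≤ c := Nat.cast_nonneg _
    push_cast
    nlinarith
  exact_mod_cast dV_le this

/-- translates of the downward ray by elements of the kernel diverge -/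
theorem down_bounded (n : NN) (hn : n ≠ 1) : ∃ C : ℝ, ∀ k : ℕ,
    gromovProduct (gv SV oV) (gv SV (n, 1 - (k : ℤ))) (rayDown k) ≤ C := by
  have hpos : 0 < len n := by
    by_contra h
    exact hn (len_eq_zero (not_lt.mp h))
  -- lower scale
  obtain ⟨K, hK⟩ := pow_unbounded_of_one_lt (1 / len n) (one_lt_two : (1 : ℝ) < 2)
  have hK' : (2 : ℝ) ^ (-(K : ℤ)) < len n := by
    rw [zpow_neg, zpow_natCast]
    rw [div_lt_iff₀ hpos] at hK
    have h2 : (0 : ℝ) < 2 ^ K := by positivity
    rw [inv_lt_iff_one_lt_mul₀ h2]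
    linarith
  obtain ⟨H, hH⟩ := pow_unbounded_of_one_lt (len n) (one_lt_two : (1 : ℝ) < 2)
  refine ⟨(2 * (H : ℝ) + 2 * K + 10) / 2, fun k => ?_⟩
  unfold gromovProduct rayDown
  rw [dist_gvV, dist_gvV, dist_gvV]
  -- first distance
  have a1 := dV_upper oV (n, 1 - (k : ℤ))
  have a2 : sc oV (n, 1 - (k : ℤ)) ≤ H + 1 := by
    apply (sc_spec _ _).2.2.2
    · unfold oV; simp only; omega
    · simp only; omega
    · unfold oV
      simp only [inv_one, one_mul]
      refine hH.le.trans ?_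
      rw [← zpow_natCast]
      exact zpow_le_zpow_right₀ one_le_two (by omega)
  have b1 := dV_upper oV (1, -(k : ℤ))
  have b2 : sc oV (1, -(k : ℤ)) ≤ 0 := by
    apply (sc_spec _ _).2.2.2
    · unfold oV; simp
    · simp only; omega
    · unfold oV
      simp only [inv_one, one_mul, len_one]
      positivity
  have c1 := dV_lower (n, 1 - (k : ℤ)) (1, -(k : ℤ))
  have c2 : -(K : ℤ) ≤ sc (n, 1 - (k : ℤ)) (1, -(k : ℤ)) := by
    by_contra hcon
    push Not at hcon
    have h3 := (sc_spec (n, 1 - (k : ℤ)) (1, -(k : ℤ))).2.2.1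
    simp only [mul_one, len_inv] at h3
    have h4 : (2 : ℝ) ^ (sc (n, 1 - (k : ℤ)) (1, -(k : ℤ))) ≤ 2 ^ (-(K : ℤ)) :=
      zpow_le_zpow_right₀ one_le_two hcon.le
    linarith
  have o2 : oV.2 = 0 := rfl
  rw [o2] at a1 b1
  simp only at a1 b1 c1
  have key : (dV oV (n, 1 - (k : ℤ)) : ℤ) + dV oV (1, -(k : ℤ)) -
      dV (n, 1 - (k : ℤ)) (1, -(k : ℤ)) ≤ 2 * H + 2 * K + 10 := by
    omega
  have key' : (dV oV (n, 1 - (k : ℤ)) : ℝ) + dV oV (1, -(k : ℤ)) -
      dV (n, 1 - (k : ℤ)) (1, -(k : ℤ)) ≤ 2 * H + 2 * K + 10 := by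
    exact_mod_cast key
  linarith

end Pool.Agent.Helper33.PH
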