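import Pool.Agent.Helper33.PH.Defs

set_option autoImplicit false

namespace Pool.Agent.Helper33.PH

theorem not_amenable : ¬ IsAmenable (FreeGroup Bool) := by
  rintro ⟨μ, h0, h1, hadd, hinv⟩
  have mono : ∀ S T : Set (FreeGroup Bool), S ⊆ T → μ S ≤ μ T := by
    intro S T h
    have h2 := hadd S (T \ S) Set.disjoint_sdiff_right
    rw [Set.union_sdiff_cancel h] at h2
    have h3 := h0 (T \ S)
    linarith
  have sub : ∀ S T : Set (FreeGroup Bool), μ (S ∪ T) ≤ μ S + μ T := by
    intro S T
    have h2 := hadd S (T \ S) Set.disjoint_sdiff_right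
    rw [Set.union_sdiff_self] at h2
    have h3 := mono (T \ S) T Set.sdiff_subset
    linarith
  have key : ∀ w : Bool × Bool, 1 ≤ μ (FreeGroup.startsWith (w.1, !w.2)) +
      μ (FreeGroup.startsWith w) := by
    intro w
    have h2 : (Set.univ : Set (FreeGroup Bool)) ⊆ FreeGroup.startsWith (w.1, !w.2) ∪
        (fun x => (FreeGroup.mk [w])⁻¹ * x) '' FreeGroup.startsWith w := by
      intro g _
      by_cases hg : g ∈ FreeGroup.startsWith (w.1, !w.2)
      · exact Or.inl hg
      · exact Or.inr ⟨_, FreeGroup.startsWith_mk_mul g hg, inv_mul_cancel_left _ _⟩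
    have h3 := mono _ _ h2
    have h4 := sub (FreeGroup.startsWith (w.1, !w.2))
      ((fun x => (FreeGroup.mk [w])⁻¹ * x) '' FreeGroup.startsWith w)
    rw [h1] at h3
    rw [hinv] at h4
    linarith
  have k1 := key (false, true)
  have k2 := key (true, true)
  simp only [Bool.not_true] at k1 k2
  have d : ∀ w w' : Bool × Bool, w ≠ w' → Disjoint (FreeGroup.startsWith w)
      (FreeGroup.startsWith w') := fun w w' h => FreeGroup.startsWith.disjoint_iff_ne.mpr h
  have e1 := hadd (FreeGroup.startsWith (false, false)) (FreeGroup.startsWith (false, true))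
    (d _ _ (by simp))
  have e2 := hadd (FreeGroup.startsWith (true, false)) (FreeGroup.startsWith (true, true))
    (d _ _ (by simp))
  have e3 := hadd (FreeGroup.startsWith (false, false) ∪ FreeGroup.startsWith (false, true))
    (FreeGroup.startsWith (true, false) ∪ FreeGroup.startsWith (true, true)) (by
      rw [Set.disjoint_union_left, Set.disjoint_union_right, Set.disjoint_union_right]
      exact ⟨⟨d _ _ (by simp), d _ _ (by simp)⟩, d _ _ (by simp), d _ _ (by simp)⟩)
  have e4 := mono (FreeGroup.startsWith (false, false) ∪ FreeGroup.startsWith (false, true) ∪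
    (FreeGroup.startsWith (true, false) ∪ FreeGroup.startsWith (true, true))) Set.univ
    (Set.subset_univ _)
  rw [h1] at e4
  linarith

end Pool.Agent.Helper33.PH
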