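import Pool.Agent.Helper33.PH.Defs

set_option autoImplicit false

namespace Pool.Agent.Helper33.PH

open Filter

variable {X : Type} [MetricSpace X]

theorem gromovProduct_comm (o x y : X) : gromovProduct o x y = gromovProduct o y x := by
  unfold gromovProduct
  rw [dist_comm x y]
  ring

theorem gromovProduct_base (o o' x y : X) :
    gromovProduct o' x y - dist o o' ≤ gromovProduct o x y := by
  unfold gromovProduct
  have h1 := dist_triangle o' o x
  have h2 := dist_triangle o' o y
  rw [dist_comm o' o] at h1 h2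
  linarith

theorem gromovProduct_near (o x y x' : X) :
    gromovProduct o x y - dist x x' ≤ gromovProduct o x' y := by
  unfold gromovProduct
  have h1 := dist_triangle o x' x
  have h2 := dist_triangle x' x y
  rw [dist_comm x' x] at h1 h2
  linarith

theorem tendsto_iff_pairs (f : ℕ × ℕ → ℝ) : Tendsto f atTop atTop ↔
    ∀ C : ℝ, ∃ N : ℕ, ∀ i j, N ≤ i → N ≤ j → C ≤ f (i, j) := by
  constructor
  · intro h C
    have h1 := (tendsto_atTop_atTop.mp h) C
    obtain ⟨⟨a, b⟩, h1⟩ := h1
    refine ⟨max a b, fun i j hi hj => h1 (i, j) ?_⟩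
    exact ⟨(le_max_left a b).trans hi, (le_max_right a b).trans hj⟩
  · intro h
    apply tendsto_atTop_atTop.mpr
    intro C
    obtain ⟨N, hN⟩ := h C
    exact ⟨(N, N), fun p hp => hN p.1 p.2 hp.1 hp.2⟩

/-- one base point is enough -/
theorem tendsto_of_base (u v : ℕ → X) (o : X)
    (h : Tendsto (fun p : ℕ × ℕ => gromovProduct o (u p.1) (v p.2)) atTop atTop) (o' : X) :
    Tendsto (fun p : ℕ × ℕ => gromovProduct o' (u p.1) (v p.2)) atTop atTop := by
  rw [tendsto_iff_pairs] at h ⊢
  intro C
  obtain ⟨N, hN⟩ := h (C + dist o' o)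
  refine ⟨N, fun i j hi hj => ?_⟩
  have h1 := hN i j hi hj
  have h2 := gromovProduct_base o' o (u i) (v j)
  linarith

theorem convergesToInfinity_of_base (u : ℕ → X) (o : X)
    (h : Tendsto (fun p : ℕ × ℕ => gromovProduct o (u p.1) (u p.2)) atTop atTop) :
    ConvergesToInfinity u :=
  fun o' => tendsto_of_base u u o h o'

theorem SameLimit.symm' {u v : {u : ℕ → X // ConvergesToInfinity u}} (h : SameLimit u v) :
    SameLimit v u := by
  intro o
  have h1 := h o
  rw [tendsto_iff_pairs] at h1 ⊢
  intro C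
  obtain ⟨N, hN⟩ := h1 C
  refine ⟨N, fun i j hi hj => ?_⟩
  have := hN j i hj hi
  change C ≤ gromovProduct o (v.1 i) (u.1 j)
  rw [gromovProduct_comm]
  exact this

theorem sameLimit_equivalence (hX : IsGromovHyperbolic X) : Equivalence (SameLimit (X := X)) where
  refl u := u.2
  symm h := h.symm'
  trans {u v w} h h' := by
    obtain ⟨δ, hδ⟩ := hX
    intro o
    have h1 := h o
    have h2 := h' o
    rw [tendsto_iff_pairs] at h1 h2 ⊢
    intro C
    obtain ⟨N, hN⟩ := h1 (C + δ)
    obtain ⟨M, hM⟩ := h2 (C + δ)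
    refine ⟨max N M, fun i j hi hj => ?_⟩
    have a1 := hN i (max N M) ((le_max_left _ _).trans hi) (le_max_left _ _)
    have a2 := hM (max N M) j (le_max_right _ _) ((le_max_right _ _).trans hj)
    have a3 := hδ o (u.1 i) (v.1 (max N M)) (w.1 j)
    have a4 := le_min a1 a2
    simp only at a4 ⊢
    linarith

theorem mk_eq_mk (hX : IsGromovHyperbolic X) {u v : {u : ℕ → X // ConvergesToInfinity u}}
    (h : (Quot.mk _ u : GromovBoundary X) = Quot.mk _ v) : SameLimit u v :=
  (sameLimit_equivalence hX).eqvGen_iff.mp (Quot.eqvGen_exact h)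

/-- sequences at bounded distance have the same limit -/
theorem sameLimit_of_dist {u v : {u : ℕ → X // ConvergesToInfinity u}} (C : ℝ)
    (h : ∀ k, dist (u.1 k) (v.1 k) ≤ C) : SameLimit u v := by
  apply SameLimit.symm'
  intro o
  have h1 := u.2 o
  rw [tendsto_iff_pairs] at h1 ⊢
  intro K
  obtain ⟨N, hN⟩ := h1 (K + C)
  refine ⟨N, fun i j hi hj => ?_⟩
  have a1 := hN i j hi hj
  have a2 := gromovProduct_near o (u.1 i) (u.1 j) (v.1 i)
  have a3 := h i
  simp only at a1 ⊢
  linarith

/-- bounded products along the two sequences: different limits -/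
theorem not_sameLimit {u v : {u : ℕ → X // ConvergesToInfinity u}} (o : X) (C : ℝ)
    (h : ∀ k, gromovProduct o (u.1 k) (v.1 k) ≤ C) : ¬ SameLimit u v := by
  intro hs
  have h1 := hs o
  rw [tendsto_iff_pairs] at h1
  obtain ⟨N, hN⟩ := h1 (C + 1)
  have := hN N N le_rfl le_rfl
  have := h N
  simp only at *
  linarith

end Pool.Agent.Helper33.PH
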