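import Mathlib

set_option autoImplicit false

namespace Pool.Agent.Helper33.PH

open Filter

/-- A metric space in which any two points are joined by a geodesic. -/
def IsGeodesicSpace (X : Type) [MetricSpace X] : Prop :=
  ∀ x y : X, ∃ γ : ℝ → X, γ 0 = x ∧ γ (dist x y) = y ∧
    ∀ s ∈ Set.Icc 0 (dist x y), ∀ t ∈ Set.Icc 0 (dist x y), dist (γ s) (γ t) = |s - t|

/-- The Gromov product of `x` and `y` at the base point `o`. -/
noncomputable def gromovProduct {X : Type} [MetricSpace X] (o x y : X) : ℝ :=
  (dist o x + dist o y - dist x y) / 2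

/-- Gromov hyperbolicity (four point condition). -/
def IsGromovHyperbolic (X : Type) [MetricSpace X] : Prop :=
  ∃ δ : ℝ, ∀ o x y z : X,
    min (gromovProduct o x y) (gromovProduct o y z) - δ ≤ gromovProduct o x z

/-- A sequence converges to infinity when its Gromov products tend to infinity. -/
def ConvergesToInfinity {X : Type} [MetricSpace X] (u : ℕ → X) : Prop :=
  ∀ o : X, Tendsto (fun p : ℕ × ℕ => gromovProduct o (u p.1) (u p.2)) atTop atTop

/-- Two sequences converging to infinity define the same boundary point. -/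
def SameLimit {X : Type} [MetricSpace X] (u v : {u : ℕ → X // ConvergesToInfinity u}) : Prop :=
  ∀ o : X, Tendsto (fun p : ℕ × ℕ => gromovProduct o (u.1 p.1) (v.1 p.2)) atTop atTop

/-- The Gromov boundary: sequences converging to infinity modulo `SameLimit` (which is an
equivalence relation on a Gromov hyperbolic space). -/
def GromovBoundary (X : Type) [MetricSpace X] : Type :=
  Quot (SameLimit (X := X))

/-- A cobounded isometric action of `G` on a (Gromov hyperbolic geodesic metric) space. -/
structure HypAction (G : Type) [Group G] where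
  X : Type
  [metric : MetricSpace X]
  [action : MulAction G X]
  geodesic : IsGeodesicSpace X
  hyperbolic : IsGromovHyperbolic X
  isometric : ∀ (g : G) (x y : X), dist (g • x) (g • y) = dist x y
  cobounded : ∃ (x : X) (R : ℝ), ∀ y : X, ∃ g : G, dist y (g • x) ≤ R

attribute [instance] HypAction.metric HypAction.action

namespace HypAction

variable {G : Type} [Group G] (A : HypAction G)

theorem gromovProduct_smul (g : G) (o x y : A.X) :
    gromovProduct o (g • x) (g • y) = gromovProduct (g⁻¹ • o) x y := by
  unfold gromovProduct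
  have h1 : dist o (g • x) = dist (g⁻¹ • o) x := by
    rw [← A.isometric g (g⁻¹ • o) x, smul_inv_smul]
  have h2 : dist o (g • y) = dist (g⁻¹ • o) y := by
    rw [← A.isometric g (g⁻¹ • o) y, smul_inv_smul]
  rw [h1, h2, A.isometric]

/-- The action on sequences converging to infinity. -/
def seqMap (g : G) (u : {u : ℕ → A.X // ConvergesToInfinity u}) :
    {u : ℕ → A.X // ConvergesToInfinity u} :=
  ⟨fun n => g • u.1 n, fun o => by
    simp only [A.gromovProduct_smul]
    exact u.2 (g⁻¹ • o)⟩

/-- The action on the Gromov boundary. -/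
def boundaryMap (g : G) : GromovBoundary A.X → GromovBoundary A.X :=
  Quot.map (A.seqMap g) (fun u v h o => by
    have := h (g⁻¹ • o)
    simp only [seqMap, A.gromovProduct_smul]
    exact this)

/-- `g` is loxodromic: its orbits are quasi-isometrically embedded copies of `ℤ`. -/
def IsLoxodromic (g : G) : Prop :=
  ∃ (x : A.X) (K C : ℝ), 1 ≤ K ∧ 0 ≤ C ∧ ∀ m n : ℤ,
    |(m : ℝ) - n| / K - C ≤ dist (g ^ m • x) (g ^ n • x) ∧
      dist (g ^ m • x) (g ^ n • x) ≤ K * |(m : ℝ) - n| + C

/-- The set of fixed points of `g` in the Gromov boundary. -/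
def fixedPoints (g : G) : Set (GromovBoundary A.X) :=
  {ξ | A.boundaryMap g ξ = ξ}

/-- Lineal actions. -/
def IsLineal : Prop :=
  (∃ g, A.IsLoxodromic g) ∧
    ∀ g h, A.IsLoxodromic g → A.IsLoxodromic h → A.fixedPoints g = A.fixedPoints h

/-- Focal actions. -/
def IsFocal : Prop :=
  ¬ A.IsLineal ∧ (∃ g, A.IsLoxodromic g) ∧
    ∀ g h, A.IsLoxodromic g → A.IsLoxodromic h → (A.fixedPoints g ∩ A.fixedPoints h).Nonempty

end HypAction

/-- The diagonal action on the finite product with the `ℓ¹` metric is metrically proper: for every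
bounded set `B` the set of `g` with `g B ∩ B ≠ ∅` is finite. -/
def IsProperDiagonal {G : Type} [Group G] {n : ℕ} (A : Fin n → HypAction G) : Prop :=
  ∀ B : Set (∀ i, (A i).X),
    (∃ C : ℝ, ∀ x ∈ B, ∀ y ∈ B, ∑ i, dist (x i) (y i) ≤ C) →
      {g : G | ∃ x ∈ B, (fun i => g • x i) ∈ B}.Finite

/-- Property (PH') where every action satisfies `T`. -/
def HasPHPrime (G : Type) [Group G] (T : HypAction G → Prop) : Prop :=
  ∃ (n : ℕ) (A : Fin n → HypAction G), (∀ i, T (A i)) ∧ IsProperDiagonal A

/-- Property (PH) from focal and lineal actions. -/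
def HasPHFocalLineal (G : Type) [Group G] : Prop :=
  ∃ G₀ : Subgroup G, G₀.FiniteIndex ∧ HasPHPrime G₀ (fun A => A.IsFocal ∨ A.IsLineal)

/-- Amenability of a discrete group: a left invariant finitely additive probability measure. -/
def IsAmenable (G : Type) [Group G] : Prop :=
  ∃ μ : Set G → ℝ, (∀ S, 0 ≤ μ S) ∧ μ Set.univ = 1 ∧
    (∀ S T, Disjoint S T → μ (S ∪ T) = μ S + μ T) ∧
    ∀ (g : G) (S : Set G), μ ((fun x => g * x) '' S) = μ S

end Pool.Agent.Helper33.PH
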