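import Pool.Agent.Helper33.PH.Action

set_option autoImplicit false

namespace Pool.Agent.Helper33.PH

open Filter

variable {G : Type} [Group G] (f : G →* FF) (hf : Function.Surjective f)

theorem horo_smul (g : G) (x : GSpace SV) :
    @HSMul.hSMul G (horoAction f hf).X (horoAction f hf).X _ g x = (f g • x : GSpace SV) := rfl

/-- powers of `t` translate along the vertical line -/
theorem t_zpow_gv (m : ℤ) : (FreeGroup.of true : FF) ^ m • gv SV oV = gv SV (1, m) := by
  rw [smul_gv, rhoV_t_zpow]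
  unfold oV
  rw [_root_.map_one, add_zero]

theorem loxodromic_of (g : G) (h : FF) (hg : f g = h * FreeGroup.of true * h⁻¹) :
    (horoAction f hf).IsLoxodromic g := by
  refine ⟨(h • gv SV oV : GSpace SV), 1, 0, le_rfl, le_rfl, fun m n => ?_⟩
  have key : ∀ m : ℤ, f (g ^ m) • (h • gv SV oV) = (h • gv SV (1, m) : GSpace SV) := by
    intro m
    rw [_root_.map_zpow, hg, conj_zpow, smul_smul, inv_mul_cancel_right, mul_smul,
      t_zpow_gv]
  change |(m : ℝ) - n| / 1 - 0 ≤ dist (f (g ^ m) • (h • gv SV oV)) (f (g ^ n) • (h • gv SV oV)) ∧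
    dist (f (g ^ m) • (h • gv SV oV)) (f (g ^ n) • (h • gv SV oV)) ≤ 1 * |(m : ℝ) - n| + 0
  rw [key m, key n, dist_smul_G, dist_vertical]
  constructor <;> linarith

/-- the common fixed point -/
noncomputable def ptUp : GromovBoundary (horoAction f hf).X := Quot.mk _ ⟨rayUp, conv_up⟩

/-- the second fixed point of `t` -/
noncomputable def ptDown : GromovBoundary (horoAction f hf).X := Quot.mk _ ⟨rayDown, conv_down⟩

theorem ptUp_fixed (g : G) : ptUp f hf ∈ (horoAction f hf).fixedPoints g := by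
  change (horoAction f hf).boundaryMap g (ptUp f hf) = ptUp f hf
  obtain ⟨C, hC⟩ := dist_up (f g)
  symm
  apply Quot.sound
  exact sameLimit_of_dist (X := GSpace SV) C hC

theorem ptDown_fixed (g : G) (hg : f g = FreeGroup.of true) :
    ptDown f hf ∈ (horoAction f hf).fixedPoints g := by
  change (horoAction f hf).boundaryMap g (ptDown f hf) = ptDown f hf
  symm
  apply Quot.sound
  refine sameLimit_of_dist (X := GSpace SV) 1 fun k => ?_
  change dist (rayDown k) (f g • rayDown k) ≤ 1
  unfold rayDown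
  rw [hg, smul_gv, rhoV_t, _root_.map_one, dist_vertical]
  push_cast
  have : (-(k : ℝ)) - (-k + 1) = -1 := by ring
  rw [this]
  norm_num

theorem ptDown_not_fixed (g : G) (hg : f g = FreeGroup.of false * FreeGroup.of true *
    (FreeGroup.of false)⁻¹) : ptDown f hf ∉ (horoAction f hf).fixedPoints g := by
  intro h
  change (horoAction f hf).boundaryMap g (ptDown f hf) = ptDown f hf at h
  have h1 := mk_eq_mk (X := GSpace SV) hyperbolic_G h
  have hn : (FreeGroup.of 0 * (FreeGroup.of 1)⁻¹ : NN) ≠ 1 := by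
    intro h2
    rw [mul_inv_eq_one] at h2
    have := FreeGroup.of_injective h2
    exact absurd this (by norm_num)
  obtain ⟨C, hC⟩ := down_bounded _ hn
  refine not_sameLimit (X := GSpace SV) (gv SV oV) C ?_ h1
  intro k
  change gromovProduct (gv SV oV) (f g • rayDown k) (rayDown k) ≤ C
  have e : f g • rayDown k = gv SV (FreeGroup.of 0 * (FreeGroup.of 1)⁻¹, 1 - (k : ℤ)) := by
    unfold rayDown
    rw [hg, smul_gv, _root_.map_mul, _root_.map_mul, Equiv.Perm.mul_apply, Equiv.Perm.mul_apply,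
      rhoV_s_inv, rhoV_t, rhoV_s]
    simp only [mul_one, _root_.map_inv, shift_of, add_zero]
    congr 2
    ring
  rw [e]
  exact hC k

theorem horo_focal : (horoAction f hf).IsFocal := by
  obtain ⟨t, ht⟩ := hf (FreeGroup.of true)
  obtain ⟨r, hr⟩ := hf (FreeGroup.of false * FreeGroup.of true * (FreeGroup.of false)⁻¹)
  have ht' : (horoAction f hf).IsLoxodromic t := loxodromic_of f hf t 1 (by rw [ht]; simp)
  have hr' : (horoAction f hf).IsLoxodromic r := loxodromic_of f hf r _ hr
  refine ⟨?_, ⟨t, ht'⟩, ?_⟩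
  · rintro ⟨-, h⟩
    have h1 := h t r ht' hr'
    have h2 := ptDown_fixed f hf t ht
    rw [h1] at h2
    exact ptDown_not_fixed f hf r hr h2
  · intro g h _ _
    exact ⟨ptUp f hf, ptUp_fixed f hf g, ptUp_fixed f hf h⟩

/-- the two twists of the action -/
noncomputable def tw (i : Fin 2) (f : G →* FF) : G →* FF := if i = 0 then f else alph.comp f

theorem tw_surj (i : Fin 2) (hf : Function.Surjective f) : Function.Surjective (tw i f) := by
  unfold tw
  split_ifs with h
  · exact hf
  · intro y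
    obtain ⟨x, hx⟩ := hf (alph y)
    refine ⟨x, ?_⟩
    change alph (f x) = y
    rw [hx, alph_alph]

/-- the two focal actions -/
noncomputable def twoActions (hf : Function.Surjective f) (i : Fin 2) : HypAction G :=
  horoAction (tw i f) (tw_surj f i hf)

theorem flipV_oV : flipV oV = oV := by
  unfold flipV oV
  simp

theorem bound_of_dV {n : NN} {j : ℤ} {r : ℕ} (h : dV (n, j) oV ≤ r) :
    len n ≤ (r : ℝ) * 2 ^ r ∧ -(r : ℤ) ≤ j ∧ j ≤ r := by
  have h1 := (Rel_dV (n, j) oV).mono h
  obtain ⟨k, h1, h2, h3⟩ := h1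
  unfold oV at h2 h3
  simp only [mul_one, len_inv, add_zero] at h1 h2 h3
  have c0 := coef_nonneg (len_nonneg _) h3
  refine ⟨h3.trans ?_, by omega, by omega⟩
  have hk : k ≤ r := by omega
  have p1 : (2 : ℝ) ^ k ≤ 2 ^ (r : ℤ) := zpow_le_zpow_right₀ one_le_two hk
  have p2 : (((r : ℤ) + j - 2 * k : ℤ) : ℝ) ≤ r := by
    exact_mod_cast (by omega : (r : ℤ) + j - 2 * k ≤ r)
  have p3 : (0 : ℝ) ≤ (((r : ℤ) + j - 2 * k : ℤ) : ℝ) := by exact_mod_cast c0
  rw [zpow_natCast] at p1
  have p4 : (0 : ℝ) ≤ 2 ^ k := by positivity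
  exact mul_le_mul p2 p1 p4 (p3.trans p2)

theorem finite_small (r : ℕ) :
    {g : FF | dV (rhoV g oV) oV ≤ r ∧ dV (rhoV (alph g) oV) oV ≤ r}.Finite := by
  have h1 := (finite_len ((r : ℝ) * 2 ^ r)).prod (Set.finite_Icc (-(r : ℤ)) r)
  refine Set.Finite.of_finite_image (f := fun g => rhoV g oV) (h1.subset ?_) ?_
  · rintro _ ⟨g, ⟨h2, h3⟩, rfl⟩
    have e : rhoV (alph g) oV = flipV (rhoV g oV) := by
      rw [← rhoV_alph, flipV_oV]
    rw [e] at h3
    obtain ⟨a1, a2, a3⟩ := bound_of_dV (n := (rhoV g oV).1) (j := (rhoV g oV).2) h2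
    obtain ⟨b1, b2, b3⟩ := bound_of_dV (n := flip (rhoV g oV).1) (j := -(rhoV g oV).2) h3
    exact ⟨⟨a1, b1⟩, a2, a3⟩
  · intro g _ g' _ h
    have h2 : theta (rhoV g oV) = theta (rhoV g' oV) := congrArg theta h
    rwa [theta_oV, theta_oV] at h2

theorem twoActions_proper (hf : Function.Surjective f) (hi : Function.Injective f) :
    IsProperDiagonal (twoActions f hf) := by
  intro B ⟨C, hC⟩
  rcases B.eq_empty_or_nonempty with rfl | ⟨b, hb⟩
  · convert Set.finite_empty
    ext g
    simp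
  · -- coordinates in the glued space
    let b' : Fin 2 → GSpace SV := fun i => b i
    obtain ⟨r, hr⟩ := exists_nat_ge (2 * C + 2 * (dist (b' 0) (gv SV oV) + dist (b' 1) (gv SV oV)))
    refine Set.Finite.subset ((finite_small r).preimage hi.injOn) ?_
    rintro g ⟨x, hx, hgx⟩
    let x' : Fin 2 → GSpace SV := fun i => x i
    have hd1 := hC x hx b hb
    have hd2 := hC _ hgx b hb
    rw [Fin.sum_univ_two] at hd1 hd2
    change dist (x' 0) (b' 0) + dist (x' 1) (b' 1) ≤ C at hd1
    change dist (f g • x' 0) (b' 0) + dist (alph (f g) • x' 1) (b' 1) ≤ C at hd2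
    have n1 : 0 ≤ dist (x' 0) (b' 0) := dist_nonneg
    have n2 : 0 ≤ dist (x' 1) (b' 1) := dist_nonneg
    have n3 : 0 ≤ dist (f g • x' 0) (b' 0) := dist_nonneg
    have n4 : 0 ≤ dist (alph (f g) • x' 1) (b' 1) := dist_nonneg
    have n5 : 0 ≤ dist (b' 0) (gv SV oV) := dist_nonneg
    have n6 : 0 ≤ dist (b' 1) (gv SV oV) := dist_nonneg
    have key : ∀ (h : FF) (x b : GSpace SV), dist (h • gv SV oV) (gv SV oV) ≤
        dist x b + dist (h • x) b + 2 * dist b (gv SV oV) := by
      intro h x b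
      have t1 := dist_triangle4 (h • gv SV oV) (h • b) (h • x) b
      have t2 := dist_triangle (h • gv SV oV) b (gv SV oV)
      rw [dist_smul_G, dist_smul_G, dist_comm (gv SV oV) b, dist_comm b x] at t1
      linarith
    have k1 := key (f g) (x' 0) (b' 0)
    have k2 := key (alph (f g)) (x' 1) (b' 1)
    rw [smul_gv, dist_gvV] at k1 k2
    constructor
    · have : (dV (rhoV (f g) oV) oV : ℝ) ≤ r := by linarith
      exact_mod_cast this
    · have : (dV (rhoV (alph (f g)) oV) oV : ℝ) ≤ r := by linarith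
      exact_mod_cast this

end Pool.Agent.Helper33.PH
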