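import Pool.Agent.Helper33.PH.Glue

set_option autoImplicit false

namespace Pool.Agent.Helper33.PH

universe u

/-- two points joined by a 1-Lipschitz path of length `L` -/
def LipPath {X : Type u} [MetricSpace X] (x y : X) (L : ℝ) : Prop :=
  0 ≤ L ∧ ∃ γ : ℝ → X, γ 0 = x ∧ γ L = y ∧
    ∀ s t, 0 ≤ s → s ≤ t → t ≤ L → dist (γ s) (γ t) ≤ t - s

namespace LipPath

variable {X : Type u} [MetricSpace X] {x y z : X} {L L' : ℝ}

theorem refl (x : X) : LipPath x x 0 :=
  ⟨le_rfl, fun _ => x, rfl, rfl, fun s t _ h _ => by rw [dist_self]; linarith⟩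

theorem symm (h : LipPath x y L) : LipPath y x L := by
  obtain ⟨h0, γ, h1, h2, h3⟩ := h
  refine ⟨h0, fun s => γ (L - s), ?_, ?_, ?_⟩
  · simp [h2]
  · simp [h1]
  · intro s t hs hst ht
    have := h3 (L - t) (L - s) (by linarith) (by linarith) (by linarith)
    rw [dist_comm]
    linarith

theorem trans (h : LipPath x y L) (h' : LipPath y z L') : LipPath x z (L + L') := by
  obtain ⟨h0, γ, h1, h2, h3⟩ := h
  obtain ⟨h0', γ', h1', h2', h3'⟩ := h'
  refine ⟨by linarith, fun s => if s ≤ L then γ s else γ' (s - L), ?_, ?_, ?_⟩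
  · change (if (0 : ℝ) ≤ L then γ 0 else γ' (0 - L)) = x
    rw [if_pos h0, h1]
  · change (if L + L' ≤ L then γ (L + L') else γ' (L + L' - L)) = z
    split_ifs with hL
    · have : L' = 0 := by linarith
      rw [this, add_zero, h2, ← h1', ← h2', this]
    · rw [add_sub_cancel_left, h2']
  · intro s t hs hst ht
    change dist (if s ≤ L then γ s else γ' (s - L)) (if t ≤ L then γ t else γ' (t - L)) ≤ t - s
    by_cases hsL : s ≤ L
    · by_cases htL : t ≤ L
      · rw [if_pos hsL, if_pos htL]
        exact h3 s t hs hst htL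
      · rw [if_pos hsL, if_neg htL]
        push Not at htL
        have a1 := h3 s L hs hsL le_rfl
        have a2 := h3' 0 (t - L) le_rfl (by linarith) (by linarith)
        rw [h2] at a1
        rw [h1'] at a2
        have := dist_triangle (γ s) y (γ' (t - L))
        linarith
    · have htL : ¬ t ≤ L := fun h => hsL (hst.trans h)
      rw [if_neg hsL, if_neg htL]
      push Not at hsL
      have := h3' (s - L) (t - L) (by linarith) (by linarith) (by linarith)
      linarith

theorem geodesic (h : LipPath x y (dist x y)) : ∃ γ : ℝ → X, γ 0 = x ∧ γ (dist x y) = y ∧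
    ∀ s ∈ Set.Icc 0 (dist x y), ∀ t ∈ Set.Icc 0 (dist x y), dist (γ s) (γ t) = |s - t| := by
  obtain ⟨h0, γ, h1, h2, h3⟩ := h
  refine ⟨γ, h1, h2, ?_⟩
  have key : ∀ s t, 0 ≤ s → s ≤ t → t ≤ dist x y → dist (γ s) (γ t) = t - s := by
    intro s t hs hst ht
    apply le_antisymm (h3 s t hs hst ht)
    have a1 := h3 0 s le_rfl hs (hst.trans ht)
    have a2 := h3 t (dist x y) (hs.trans hst) ht le_rfl
    rw [h1] at a1
    rw [h2] at a2
    have a3 := dist_triangle4 x (γ s) (γ t) y
    linarith
  rintro s ⟨hs0, hs1⟩ t ⟨ht0, ht1⟩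
  rcases le_total s t with h | h
  · rw [key s t hs0 h ht1, abs_sub_comm, abs_of_nonneg (by linarith)]
  · rw [dist_comm, key t s ht0 h hs1, abs_of_nonneg (by linarith)]

end LipPath

variable {V : Type u} {S : StepMetric V}

/-- the glued metric space -/
abbrev GSpace (S : StepMetric V) := SeparationQuotient (Pt S)

/-- vertices in the glued space -/
noncomputable def gv (S : StepMetric V) (w : V) : GSpace S := SeparationQuotient.mk (Pt.vert S w)

theorem dist_gv (w w' : V) : dist (gv S w) (gv S w') = S.d w w' := by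
  unfold gv
  rw [SeparationQuotient.dist_mk, Pt.dist_vert]

theorem mk_eq_gv {p : Pt S} {w : V} (h : Pt.rho p w ≤ 0) :
    (SeparationQuotient.mk p : GSpace S) = gv S w := by
  rw [← dist_le_zero]
  unfold gv
  rw [SeparationQuotient.dist_mk, Pt.dist_def, Pt.D_vert]
  exact h

theorem lipPath_edge (p : Pt S) : LipPath (SeparationQuotient.mk p : GSpace S) (gv S p.u) p.t ∧
    LipPath (SeparationQuotient.mk p : GSpace S) (gv S p.v) ((S.d p.u p.v : ℝ) - p.t) := by
  classical
  have h0 := p.ht0
  have h1 := p.ht1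
  -- the segment
  have hcl : ∀ s : ℝ, 0 ≤ max 0 (min s (S.d p.u p.v : ℝ)) ∧
      max 0 (min s (S.d p.u p.v : ℝ)) ≤ (S.d p.u p.v : ℝ) := fun s =>
    ⟨le_max_left _ _, max_le (Nat.cast_nonneg _) (min_le_right _ _)⟩
  let seg : ℝ → Pt S := fun s => ⟨p.u, p.v, max 0 (min s (S.d p.u p.v : ℝ)), p.huv,
    (hcl s).1, (hcl s).2⟩
  have hseg : ∀ s, 0 ≤ s → s ≤ (S.d p.u p.v : ℝ) → (seg s).t = s := by
    intro s hs hs'
    change max 0 (min s (S.d p.u p.v : ℝ)) = s
    rw [min_eq_left hs', max_eq_right hs]
  have hdist : ∀ s t, 0 ≤ s → s ≤ t → t ≤ (S.d p.u p.v : ℝ) → dist (seg s) (seg t) = t - s := by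
    intro s t hs hst ht
    rw [Pt.dist_def]
    unfold Pt.D
    rw [if_pos ⟨rfl, rfl⟩, hseg s hs (hst.trans ht), hseg t (hs.trans hst) ht, abs_sub_comm,
      abs_of_nonneg (by linarith)]
  have hp : seg p.t = p := by
    ext
    · rfl
    · rfl
    · exact hseg p.t h0 h1
  have e0 : (SeparationQuotient.mk (seg 0) : GSpace S) = gv S p.u := by
    apply mk_eq_gv
    have := Pt.rho_u (seg 0)
    rw [hseg 0 le_rfl (Nat.cast_nonneg _)] at this
    exact this
  have e1 : (SeparationQuotient.mk (seg (S.d p.u p.v : ℝ)) : GSpace S) = gv S p.v := by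
    apply mk_eq_gv
    have := Pt.rho_v (seg (S.d p.u p.v : ℝ))
    rw [hseg _ (Nat.cast_nonneg _) le_rfl] at this
    have h2 : (S.d (seg (S.d p.u p.v : ℝ)).u (seg (S.d p.u p.v : ℝ)).v : ℝ) -
      (S.d p.u p.v : ℝ) = 0 := sub_self _
    rw [h2] at this
    exact this
  constructor
  · apply LipPath.symm
    refine ⟨h0, fun s => SeparationQuotient.mk (seg s), e0, ?_, ?_⟩
    · change (SeparationQuotient.mk (seg p.t) : GSpace S) = _
      rw [hp]
    · intro s t hs hst ht
      change dist (SeparationQuotient.mk (seg s) : GSpace S) (SeparationQuotient.mk (seg t)) ≤ _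
      rw [SeparationQuotient.dist_mk, hdist s t hs hst (ht.trans h1)]
  · refine ⟨by linarith, fun s => SeparationQuotient.mk (seg (p.t + s)), ?_, ?_, ?_⟩
    · change (SeparationQuotient.mk (seg (p.t + 0)) : GSpace S) = _
      rw [add_zero, hp]
    · change (SeparationQuotient.mk (seg (p.t + ((S.d p.u p.v : ℝ) - p.t))) : GSpace S) = _
      rw [add_sub_cancel, e1]
    · intro s t hs hst ht
      change dist (SeparationQuotient.mk (seg (p.t + s)) : GSpace S)
        (SeparationQuotient.mk (seg (p.t + t))) ≤ _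
      rw [SeparationQuotient.dist_mk, hdist _ _ (by linarith) (by linarith) (by linarith)]
      linarith

theorem lipPath_vert (a b : V) : LipPath (gv S a) (gv S b) (S.d a b : ℝ) := by
  obtain ⟨n, hn⟩ : ∃ n, S.d a b = n := ⟨_, rfl⟩
  induction n using Nat.strong_induction_on generalizing a with
  | _ n ih =>
    by_cases hab : a = b
    · subst hab
      rw [S.d_self, Nat.cast_zero]
      exact LipPath.refl _
    · obtain ⟨w, hw, hR, he⟩ := S.step a b hab
      have hpos : 0 < S.d a w := by
        rcases Nat.eq_zero_or_pos (S.d a w) with h | h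
        · exact absurd (S.eq_of_d _ _ h).symm hw
        · exact h
      have h1 := ih (S.d w b) (by omega) w rfl
      have h2 : LipPath (gv S a) (gv S w) (S.d a w : ℝ) := by
        have := (lipPath_edge (⟨a, w, 0, hR, le_rfl, Nat.cast_nonneg _⟩ : Pt S))
        have e : (SeparationQuotient.mk (⟨a, w, 0, hR, le_rfl, Nat.cast_nonneg _⟩ : Pt S) :
            GSpace S) = gv S a := by
          apply mk_eq_gv
          exact Pt.rho_u (⟨a, w, 0, hR, le_rfl, Nat.cast_nonneg _⟩ : Pt S)
        have h3 := this.2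
        rw [e] at h3
        simpa using h3
      have h3 := h2.trans h1
      have h4 : (S.d a w : ℝ) + (S.d w b : ℝ) = S.d a b := by exact_mod_cast he
      rw [h4] at h3
      exact h3

theorem GSpace.geodesic (x y : GSpace S) : LipPath x y (dist x y) := by
  classical
  obtain ⟨p, rfl⟩ := SeparationQuotient.surjective_mk x
  obtain ⟨q, rfl⟩ := SeparationQuotient.surjective_mk y
  rw [SeparationQuotient.dist_mk, Pt.dist_def]
  by_cases h : p.u = q.u ∧ p.v = q.v
  · -- same edge
    have key : ∀ p q : Pt S, p.u = q.u ∧ p.v = q.v → p.t ≤ q.t →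
        LipPath (SeparationQuotient.mk p : GSpace S) (SeparationQuotient.mk q) (Pt.D p q) := by
      intro p q h hle
      have h0 := p.ht0
      have h1 := q.ht1
      rw [← h.1, ← h.2] at h1
      have hD : Pt.D p q = q.t - p.t := by
        unfold Pt.D
        rw [if_pos h, abs_sub_comm, abs_of_nonneg (by linarith)]
      rw [hD]
      have hcl : ∀ s : ℝ, 0 ≤ max 0 (min s (S.d p.u p.v : ℝ)) ∧
          max 0 (min s (S.d p.u p.v : ℝ)) ≤ (S.d p.u p.v : ℝ) := fun s =>
        ⟨le_max_left _ _, max_le (Nat.cast_nonneg _) (min_le_right _ _)⟩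
      let seg : ℝ → Pt S := fun s => ⟨p.u, p.v, max 0 (min s (S.d p.u p.v : ℝ)), p.huv,
        (hcl s).1, (hcl s).2⟩
      have hseg : ∀ s, 0 ≤ s → s ≤ (S.d p.u p.v : ℝ) → (seg s).t = s := by
        intro s hs hs'
        change max 0 (min s (S.d p.u p.v : ℝ)) = s
        rw [min_eq_left hs', max_eq_right hs]
      refine ⟨by linarith, fun s => SeparationQuotient.mk (seg (p.t + s)), ?_, ?_, ?_⟩
      · change (SeparationQuotient.mk (seg (p.t + 0)) : GSpace S) = _
        congr 1
        rw [add_zero]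
        ext
        · rfl
        · rfl
        · exact hseg p.t h0 (hle.trans h1)
      · change (SeparationQuotient.mk (seg (p.t + (q.t - p.t))) : GSpace S) = _
        congr 1
        rw [add_sub_cancel]
        ext
        · exact h.1
        · exact h.2
        · exact hseg q.t (h0.trans hle) h1
      · intro s t hs hst ht
        change dist (SeparationQuotient.mk (seg (p.t + s)) : GSpace S)
          (SeparationQuotient.mk (seg (p.t + t))) ≤ _
        rw [SeparationQuotient.dist_mk, Pt.dist_def]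
        unfold Pt.D
        rw [if_pos ⟨rfl, rfl⟩, hseg _ (by linarith) (by linarith),
          hseg _ (by linarith) (by linarith), abs_sub_comm, abs_of_nonneg (by linarith)]
        linarith
    rcases le_total p.t q.t with hle | hle
    · exact key p q h hle
    · have := key q p ⟨h.1.symm, h.2.symm⟩ hle
      rw [Pt.D_symm]
      exact this.symm
  · have hD : Pt.D p q = Pt.DV p q := by
      unfold Pt.D
      rw [if_neg h]
    rw [hD]
    obtain ⟨a, b, s, r, hs, hr, e⟩ := Pt.exists_DV p q
    rw [e]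
    have h1 : LipPath (SeparationQuotient.mk p : GSpace S) (gv S a) s := by
      rcases hs with ⟨rfl, rfl⟩ | ⟨rfl, rfl⟩
      · exact (lipPath_edge p).1
      · exact (lipPath_edge p).2
    have h2 : LipPath (SeparationQuotient.mk q : GSpace S) (gv S b) r := by
      rcases hr with ⟨rfl, rfl⟩ | ⟨rfl, rfl⟩
      · exact (lipPath_edge q).1
      · exact (lipPath_edge q).2
    exact (h1.trans (lipPath_vert a b)).trans h2.symm

theorem exists_near (x : GSpace S) : ∃ w : V, dist x (gv S w) ≤ S.R := by
  obtain ⟨p, rfl⟩ := SeparationQuotient.surjective_mk x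
  refine ⟨p.u, ?_⟩
  unfold gv
  rw [SeparationQuotient.dist_mk]
  exact Pt.dist_u p

end Pool.Agent.Helper33.PH
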