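import Mathlib

set_option autoImplicit false

namespace Pool.Agent.Helper33.PH

universe u

/-- an integer valued metric in which any two distinct points are joined by a chain of
bounded steps of total length the distance -/
structure StepMetric (V : Type u) where
  d : V → V → ℕ
  d_self : ∀ x, d x x = 0
  eq_of_d : ∀ x y, d x y = 0 → x = y
  symm : ∀ x y, d x y = d y x
  tri : ∀ x y z, d x z ≤ d x y + d y z
  R : ℕ
  step : ∀ x y, x ≠ y → ∃ w, w ≠ x ∧ d x w ≤ R ∧ d x w + d w y = d x y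

variable {V : Type u}

/-- points of the space obtained by attaching a segment of length `d u v` to every pair with
`d u v ≤ R` -/
@[ext]
structure Pt (S : StepMetric V) where
  u : V
  v : V
  t : ℝ
  huv : S.d u v ≤ S.R
  ht0 : 0 ≤ t
  ht1 : t ≤ (S.d u v : ℝ)

namespace Pt

variable {S : StepMetric V}

/-- distance to a vertex -/
noncomputable def rho (p : Pt S) (w : V) : ℝ :=
  min (p.t + S.d p.u w) ((S.d p.u p.v : ℝ) - p.t + S.d p.v w)

/-- distance through vertices -/
noncomputable def DV (p q : Pt S) : ℝ :=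
  min (p.t + rho q p.u) ((S.d p.u p.v : ℝ) - p.t + rho q p.v)

open Classical in
/-- the distance -/
noncomputable def D (p q : Pt S) : ℝ :=
  if p.u = q.u ∧ p.v = q.v then |p.t - q.t| else DV p q

theorem triR (S : StepMetric V) (x y z : V) : (S.d x z : ℝ) ≤ S.d x y + S.d y z := by
  exact_mod_cast S.tri x y z

theorem symmR (S : StepMetric V) (x y : V) : (S.d x y : ℝ) = S.d y x := by
  rw [S.symm]

theorem rho_nonneg (p : Pt S) (w : V) : 0 ≤ rho p w := by
  have h0 := p.ht0
  have h1 := p.ht1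
  refine le_min ?_ ?_
  · positivity
  · have : (0 : ℝ) ≤ S.d p.v w := Nat.cast_nonneg _
    linarith

theorem rho_le (p : Pt S) (w w' : V) : rho p w ≤ rho p w' + S.d w' w := by
  unfold rho
  rcases min_choice (p.t + S.d p.u w') ((S.d p.u p.v : ℝ) - p.t + S.d p.v w') with h | h
  · rw [h]
    refine (min_le_left _ _).trans ?_
    have := triR S p.u w' w
    linarith
  · rw [h]
    refine (min_le_right _ _).trans ?_
    have := triR S p.v w' w
    linarith

theorem d_le_rho (p : Pt S) (w w' : V) : (S.d w w' : ℝ) ≤ rho p w + rho p w' := by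
  have h0 := p.ht0
  have h1 := p.ht1
  have a1 := triR S w p.u w'
  have a2 := triR S w p.v w'
  have a3 := symmR S w p.u
  have a4 := symmR S w p.v
  have a5 := triR S p.u p.v w'
  have a6 := triR S p.v p.u w'
  have a7 := symmR S p.v p.u
  unfold rho
  rcases min_choice (p.t + S.d p.u w) ((S.d p.u p.v : ℝ) - p.t + S.d p.v w) with h | h <;>
  rcases min_choice (p.t + S.d p.u w') ((S.d p.u p.v : ℝ) - p.t + S.d p.v w') with h' | h' <;>
  rw [h, h'] <;> linarith

theorem DV_le (p q : Pt S) (w : V) : DV p q ≤ rho p w + rho q w := by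
  unfold DV
  have h1 := rho_le q p.u w
  have h2 := rho_le q p.v w
  have h3 := symmR S w p.u
  have h4 := symmR S w p.v
  conv_rhs => rw [rho]
  rcases min_choice (p.t + S.d p.u w) ((S.d p.u p.v : ℝ) - p.t + S.d p.v w) with h | h
  · rw [h]
    refine (min_le_left _ _).trans ?_
    linarith
  · rw [h]
    refine (min_le_right _ _).trans ?_
    linarith

theorem rho_u (p : Pt S) : rho p p.u ≤ p.t := by
  refine (min_le_left _ _).trans ?_
  rw [S.d_self]
  simp

theorem rho_v (p : Pt S) : rho p p.v ≤ (S.d p.u p.v : ℝ) - p.t := by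
  refine (min_le_right _ _).trans ?_
  rw [S.d_self]
  simp

/-- the distance through vertices, expanded -/
theorem exists_DV (p q : Pt S) : ∃ a b : V, ∃ s r : ℝ,
    ((a = p.u ∧ s = p.t) ∨ (a = p.v ∧ s = (S.d p.u p.v : ℝ) - p.t)) ∧
    ((b = q.u ∧ r = q.t) ∨ (b = q.v ∧ r = (S.d q.u q.v : ℝ) - q.t)) ∧
    DV p q = s + S.d a b + r := by
  have hq : ∀ w : V, ∃ b : V, ∃ r : ℝ,
      ((b = q.u ∧ r = q.t) ∨ (b = q.v ∧ r = (S.d q.u q.v : ℝ) - q.t)) ∧
      rho q w = S.d w b + r := by
    intro w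
    unfold rho
    rcases min_choice (q.t + S.d q.u w) ((S.d q.u q.v : ℝ) - q.t + S.d q.v w) with h | h
    · exact ⟨q.u, q.t, Or.inl ⟨rfl, rfl⟩, by rw [h, symmR S w q.u]; ring⟩
    · exact ⟨q.v, _, Or.inr ⟨rfl, rfl⟩, by rw [h, symmR S w q.v]; ring⟩
  unfold DV
  rcases min_choice (p.t + rho q p.u) ((S.d p.u p.v : ℝ) - p.t + rho q p.v) with h | h
  · obtain ⟨b, r, hb, e⟩ := hq p.u
    exact ⟨p.u, b, p.t, r, Or.inl ⟨rfl, rfl⟩, hb, by rw [h, e]; ring⟩
  · obtain ⟨b, r, hb, e⟩ := hq p.v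
    exact ⟨p.v, b, _, r, Or.inr ⟨rfl, rfl⟩, hb, by rw [h, e]; ring⟩

theorem exists_rho (p q : Pt S) : ∃ w : V, rho p w + rho q w ≤ DV p q := by
  obtain ⟨a, b, s, r, hs, hr, e⟩ := exists_DV p q
  refine ⟨b, ?_⟩
  have h1 : rho q b ≤ r := by
    rcases hr with ⟨rfl, rfl⟩ | ⟨rfl, rfl⟩
    · exact rho_u q
    · exact rho_v q
  have h2 : rho p a ≤ s := by
    rcases hs with ⟨rfl, rfl⟩ | ⟨rfl, rfl⟩
    · exact rho_u p
    · exact rho_v p
  have h3 := rho_le p b a
  linarith

theorem DV_symm (p q : Pt S) : DV p q = DV q p := by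
  apply le_antisymm
  · obtain ⟨w, hw⟩ := exists_rho q p
    exact (DV_le p q w).trans (by linarith)
  · obtain ⟨w, hw⟩ := exists_rho p q
    exact (DV_le q p w).trans (by linarith)

theorem DV_tri (p q r : Pt S) : DV p r ≤ DV p q + DV q r := by
  obtain ⟨w, hw⟩ := exists_rho p q
  obtain ⟨w', hw'⟩ := exists_rho q r
  have h1 := d_le_rho q w w'
  have h2 := rho_le p w' w
  have h3 := DV_le p r w'
  linarith

theorem DV_same (p q : Pt S) (h : p.u = q.u ∧ p.v = q.v) : |p.t - q.t| ≤ DV p q := by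
  have h0 := p.ht0
  have h1 := p.ht1
  have h0' := q.ht0
  have h1' := q.ht1
  obtain ⟨a, b, s, r, hs, hr, e⟩ := exists_DV p q
  rw [← h.1, ← h.2] at hr
  rw [← h.1, ← h.2] at h1'
  rw [e, abs_le]
  have hd : (0 : ℝ) ≤ S.d a b := Nat.cast_nonneg _
  have a1 := symmR S p.v p.u
  rcases hs with ⟨rfl, rfl⟩ | ⟨rfl, rfl⟩ <;> rcases hr with ⟨rfl, rfl⟩ | ⟨rfl, rfl⟩ <;>
    constructor <;> linarith

theorem DV_same_le (p q r : Pt S) (h : p.u = q.u ∧ p.v = q.v) :
    DV p r ≤ |p.t - q.t| + DV q r := by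
  unfold DV
  rw [← h.1, ← h.2]
  have h2 := le_abs_self (p.t - q.t)
  have h3 := neg_abs_le (p.t - q.t)
  rcases min_choice (q.t + rho r p.u) ((S.d p.u p.v : ℝ) - q.t + rho r p.v) with h | h
  · rw [h]
    refine (min_le_left _ _).trans ?_
    linarith
  · rw [h]
    refine (min_le_right _ _).trans ?_
    linarith

theorem D_le_DV (p q : Pt S) : D p q ≤ DV p q := by
  unfold D
  split_ifs with h
  · exact DV_same p q h
  · exact le_rfl

theorem D_symm (p q : Pt S) : D p q = D q p := by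
  unfold D
  by_cases h : p.u = q.u ∧ p.v = q.v
  · rw [if_pos h, if_pos ⟨h.1.symm, h.2.symm⟩, abs_sub_comm]
  · rw [if_neg h, if_neg (fun h' => h ⟨h'.1.symm, h'.2.symm⟩), DV_symm]

theorem D_tri (p q r : Pt S) : D p r ≤ D p q + D q r := by
  by_cases h1 : p.u = q.u ∧ p.v = q.v
  · by_cases h2 : q.u = r.u ∧ q.v = r.v
    · have h3 : p.u = r.u ∧ p.v = r.v := ⟨h1.1.trans h2.1, h1.2.trans h2.2⟩
      unfold D
      rw [if_pos h1, if_pos h2, if_pos h3]
      exact abs_sub_le _ _ _
    · have h3 : ¬ (p.u = r.u ∧ p.v = r.v) := fun h3 =>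
        h2 ⟨h1.1.symm.trans h3.1, h1.2.symm.trans h3.2⟩
      unfold D
      rw [if_pos h1, if_neg h2, if_neg h3]
      exact DV_same_le p q r h1
  · by_cases h2 : q.u = r.u ∧ q.v = r.v
    · have h3 : ¬ (p.u = r.u ∧ p.v = r.v) := fun h3 =>
        h1 ⟨h3.1.trans h2.1.symm, h3.2.trans h2.2.symm⟩
      unfold D
      rw [if_neg h1, if_pos h2, if_neg h3, DV_symm p r, DV_symm p q, abs_sub_comm]
      have := DV_same_le r q p ⟨h2.1.symm, h2.2.symm⟩
      linarith
    · refine (D_le_DV p r).trans ?_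
      unfold D
      rw [if_neg h1, if_neg h2]
      exact DV_tri p q r

noncomputable instance : PseudoMetricSpace (Pt S) where
  dist := D
  dist_self p := by
    unfold D
    simp
  dist_comm := D_symm
  dist_triangle := D_tri

theorem dist_def (p q : Pt S) : dist p q = D p q := rfl

/-- the vertices -/
def vert (S : StepMetric V) (w : V) : Pt S :=
  ⟨w, w, 0, by rw [S.d_self]; exact Nat.zero_le _, le_rfl, Nat.cast_nonneg _⟩

theorem rho_vert (w w' : V) : rho (vert S w) w' = S.d w w' := by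
  unfold rho vert
  simp [S.d_self]

theorem DV_vert (p : Pt S) (w : V) : DV p (vert S w) = rho p w := by
  apply le_antisymm
  · refine (DV_le p _ w).trans ?_
    rw [rho_vert, S.d_self]
    simp
  · obtain ⟨a, ha⟩ := exists_rho p (vert S w)
    rw [rho_vert] at ha
    have h1 := rho_le p w a
    rw [symmR S a w] at h1
    linarith

theorem D_vert (p : Pt S) (w : V) : D p (vert S w) = rho p w := by
  unfold D
  split_ifs with h
  · have hu : p.u = w := h.1
    have hv : p.v = w := h.2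
    have h0 := p.ht0
    have h1 := p.ht1
    rw [hu, hv, S.d_self, Nat.cast_zero] at h1
    have ht : p.t = 0 := le_antisymm h1 h0
    unfold rho vert
    rw [hu, hv, ht]
    simp [S.d_self]
  · exact DV_vert p w

theorem dist_vert (w w' : V) : dist (vert S w) (vert S w') = S.d w w' := by
  rw [dist_def, D_vert, rho_vert]

theorem dist_u (p : Pt S) : dist p (vert S p.u) ≤ S.R := by
  rw [dist_def, D_vert]
  refine (rho_u p).trans (p.ht1.trans ?_)
  exact_mod_cast p.huv

end Pt

end Pool.Agent.Helper33.PH
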