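import Pool.Agent.Helper33.PH.Len

set_option autoImplicit false

namespace Pool.Agent.Helper33.PH

open FreeGroup

/-- vertex set of the horoball -/
abbrev VV := NN × ℤ

/-- `x` and `y` are at distance at most `m` -/
def Rel (x y : VV) (m : ℕ) : Prop :=
  ∃ h : ℤ, x.2 ≤ h ∧ y.2 ≤ h ∧
    len (x.1⁻¹ * y.1) ≤ (((m : ℤ) + x.2 + y.2 - 2 * h : ℤ) : ℝ) * 2 ^ h

theorem coef_nonneg {l : ℝ} (hl : 0 ≤ l) {c h : ℤ} (h1 : l ≤ (c : ℝ) * 2 ^ h) : 0 ≤ c := by
  by_contra hc
  push Not at hc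
  have h2 : (c : ℝ) < 0 := by exact_mod_cast hc
  have h3 : (0 : ℝ) < 2 ^ h := by positivity
  have h4 : (c : ℝ) * 2 ^ h < 0 := mul_neg_of_neg_of_pos h2 h3
  linarith

theorem Rel.mono {x y : VV} {m m' : ℕ} (h : Rel x y m) (hm : m ≤ m') : Rel x y m' := by
  obtain ⟨k, h1, h2, h3⟩ := h
  refine ⟨k, h1, h2, h3.trans ?_⟩
  have : (0 : ℝ) < 2 ^ k := by positivity
  apply mul_le_mul_of_nonneg_right _ this.le
  exact_mod_cast (by omega : (m : ℤ) + x.2 + y.2 - 2 * k ≤ (m' : ℤ) + x.2 + y.2 - 2 * k)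

theorem exists_Rel (x y : VV) : ∃ m, Rel x y m := by
  set h := max x.2 y.2 with hh
  have h2 : (0 : ℝ) < 2 ^ h := by positivity
  obtain ⟨c, hc⟩ := exists_nat_ge (len (x.1⁻¹ * y.1) / 2 ^ h)
  rw [div_le_iff₀ h2] at hc
  refine ⟨c + (2 * h - x.2 - y.2).toNat, h, le_max_left _ _, le_max_right _ _, hc.trans ?_⟩
  apply mul_le_mul_of_nonneg_right _ h2.le
  have h3 : 0 ≤ 2 * h - x.2 - y.2 := by
    have := le_max_left x.2 y.2
    have := le_max_right x.2 y.2
    omega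
  have h4 : ((c + (2 * h - x.2 - y.2).toNat : ℕ) : ℤ) + x.2 + y.2 - 2 * h = c := by
    push_cast
    rw [Int.toNat_of_nonneg h3]
    ring
  rw [h4]
  simp

open Classical in
/-- the distance on the vertex set -/
noncomputable def dV (x y : VV) : ℕ := Nat.find (exists_Rel x y)

theorem Rel_dV (x y : VV) : Rel x y (dV x y) := by
  classical
  exact Nat.find_spec (exists_Rel x y)

theorem dV_le {x y : VV} {m : ℕ} (h : Rel x y m) : dV x y ≤ m := by
  classical
  exact Nat.find_min' (exists_Rel x y) h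

theorem Rel_symm {x y : VV} {m : ℕ} (h : Rel x y m) : Rel y x m := by
  obtain ⟨k, h1, h2, h3⟩ := h
  refine ⟨k, h2, h1, ?_⟩
  have h4 : len (y.1⁻¹ * x.1) = len (x.1⁻¹ * y.1) := by
    rw [← len_inv]
    congr 1
    group
  rw [h4]
  refine h3.trans (le_of_eq ?_)
  congr 2
  ring

theorem Rel_trans {x y z : VV} {m m' : ℕ} (h : Rel x y m) (h' : Rel y z m') :
    Rel x z (m + m') := by
  obtain ⟨k, h1, h2, h3⟩ := h
  obtain ⟨k', h1', h2', h3'⟩ := h'
  refine ⟨max k k', h1.trans (le_max_left _ _), h2'.trans (le_max_right _ _), ?_⟩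
  have e : x.1⁻¹ * z.1 = (x.1⁻¹ * y.1) * (y.1⁻¹ * z.1) := by group
  rw [e]
  refine (len_mul _ _).trans ?_
  have c1 := coef_nonneg (len_nonneg _) h3
  have c2 := coef_nonneg (len_nonneg _) h3'
  have p1 : (2 : ℝ) ^ k ≤ 2 ^ (max k k') := zpow_le_zpow_right₀ one_le_two (le_max_left _ _)
  have p2 : (2 : ℝ) ^ k' ≤ 2 ^ (max k k') := zpow_le_zpow_right₀ one_le_two (le_max_right _ _)
  have p3 : (0 : ℝ) < 2 ^ (max k k') := by positivity
  have c1' : (0 : ℝ) ≤ (((m : ℤ) + x.2 + y.2 - 2 * k : ℤ) : ℝ) := by exact_mod_cast c1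
  have c2' : (0 : ℝ) ≤ (((m' : ℤ) + y.2 + z.2 - 2 * k' : ℤ) : ℝ) := by exact_mod_cast c2
  have q1 := mul_le_mul_of_nonneg_left p1 c1'
  have q2 := mul_le_mul_of_nonneg_left p2 c2'
  have q3 : (((m : ℤ) + x.2 + y.2 - 2 * k : ℤ) : ℝ) * 2 ^ (max k k') +
      (((m' : ℤ) + y.2 + z.2 - 2 * k' : ℤ) : ℝ) * 2 ^ (max k k') ≤
      ((((m + m' : ℕ) : ℤ) + x.2 + z.2 - 2 * (max k k') : ℤ) : ℝ) * 2 ^ (max k k') := by
    rw [← add_mul]
    apply mul_le_mul_of_nonneg_right _ p3.le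
    have : ((m : ℤ) + x.2 + y.2 - 2 * k) + ((m' : ℤ) + y.2 + z.2 - 2 * k') ≤
        ((m + m' : ℕ) : ℤ) + x.2 + z.2 - 2 * (max k k') := by
      push_cast
      rcases le_total k k' with hk | hk
      · rw [max_eq_right hk]; omega
      · rw [max_eq_left hk]; omega
    exact_mod_cast this
  linarith

theorem dV_self (x : VV) : dV x x = 0 := by
  apply Nat.eq_zero_of_le_zero
  apply dV_le
  refine ⟨x.2, le_rfl, le_rfl, ?_⟩
  rw [inv_mul_cancel, len_one]
  have : ((0 : ℕ) : ℤ) + x.2 + x.2 - 2 * x.2 = 0 := by push_cast; ring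
  rw [this]
  simp

theorem eq_of_dV {x y : VV} (h : dV x y = 0) : x = y := by
  have h1 := Rel_dV x y
  rw [h] at h1
  obtain ⟨k, h1, h2, h3⟩ := h1
  have c := coef_nonneg (len_nonneg _) h3
  have hk : k = x.2 := by push_cast at c; omega
  have hk' : k = y.2 := by push_cast at c; omega
  have hc : ((0 : ℕ) : ℤ) + x.2 + y.2 - 2 * k = 0 := by push_cast at c ⊢; omega
  rw [hc] at h3
  have h4 := len_eq_zero (n := x.1⁻¹ * y.1) (by simpa using h3)
  apply Prod.ext
  · exact inv_mul_eq_one.mp h4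
  · rw [← hk, ← hk']

theorem dV_symm (x y : VV) : dV x y = dV y x :=
  le_antisymm (dV_le (Rel_symm (Rel_dV y x))) (dV_le (Rel_symm (Rel_dV x y)))

theorem dV_tri (x y z : VV) : dV x z ≤ dV x y + dV y z :=
  dV_le (Rel_trans (Rel_dV x y) (Rel_dV y z))

theorem dV_step (x y : VV) (hxy : x ≠ y) :
    ∃ w, w ≠ x ∧ dV x w ≤ 5 ∧ dV x w + dV w y = dV x y := by
  have hm0 : dV x y ≠ 0 := fun h => hxy (eq_of_dV h)
  obtain ⟨h, hx, hy, hl⟩ := Rel_dV x y
  set m := dV x y with hm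
  have c0 := coef_nonneg (len_nonneg _) hl
  -- criterion
  have crit : ∀ (w : VV) (a b : ℕ), w ≠ x → Rel x w a → Rel w y b → a + b ≤ m → a ≤ 5 →
      ∃ w, w ≠ x ∧ dV x w ≤ 5 ∧ dV x w + dV w y = m := by
    intro w a b hw h1 h2 hab ha
    refine ⟨w, hw, (dV_le h1).trans ha, ?_⟩
    have h3 := dV_le h1
    have h4 := dV_le h2
    have h5 := dV_tri x w y
    omega
  by_cases hlt : x.2 < h
  · -- go up
    by_cases h1 : x.1 = y.1 ∧ y.2 < x.2
    · -- vertical, downwards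
      refine crit (x.1, x.2 - 1) 1 (m - 1) ?_ ?_ ?_ (by omega) (by norm_num)
      · intro e
        have := congrArg Prod.snd e
        simp at this
      · refine ⟨x.2, le_rfl, by simp, ?_⟩
        simp only [inv_mul_cancel, len_one]
        have : ((1 : ℕ) : ℤ) + x.2 + (x.2 - 1) - 2 * x.2 = 0 := by push_cast; ring
        rw [this]
        simp
      · refine ⟨h - 1, by simp; omega, by omega, ?_⟩
        simp only
        rw [h1.1, inv_mul_cancel, len_one]
        have : 0 ≤ ((m - 1 : ℕ) : ℤ) + (x.2 - 1) + y.2 - 2 * (h - 1) := by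
          have : ((m - 1 : ℕ) : ℤ) = (m : ℤ) - 1 := by
            rw [Nat.cast_sub (by omega)]; simp
          omega
        have h3 : (0 : ℝ) ≤ ((((m - 1 : ℕ) : ℤ) + (x.2 - 1) + y.2 - 2 * (h - 1) : ℤ) : ℝ) := by
          exact_mod_cast this
        positivity
    · refine crit (x.1, x.2 + 1) 1 (m - 1) ?_ ?_ ?_ (by omega) (by norm_num)
      · intro e
        have := congrArg Prod.snd e
        simp at this
      · refine ⟨x.2 + 1, by simp, by simp, ?_⟩
        simp only [inv_mul_cancel, len_one]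
        have : ((1 : ℕ) : ℤ) + x.2 + (x.2 + 1) - 2 * (x.2 + 1) = 0 := by push_cast; ring
        rw [this]
        simp
      · refine ⟨h, by simp; omega, hy, ?_⟩
        simp only
        refine hl.trans (le_of_eq ?_)
        congr 2
        have : ((m - 1 : ℕ) : ℤ) = (m : ℤ) - 1 := by
          rw [Nat.cast_sub (by omega)]; simp
        rw [this]
        ring
  · have hxh : x.2 = h := le_antisymm hx (not_lt.mp hlt)
    by_cases h1 : x.1 = y.1
    · -- vertical, downwards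
      have hy2 : y.2 < x.2 := by
        rcases lt_or_eq_of_le (hxh ▸ hy : y.2 ≤ x.2) with h2 | h2
        · exact h2
        · exact absurd (Prod.ext h1 h2.symm) hxy
      refine crit (x.1, x.2 - 1) 1 (m - 1) ?_ ?_ ?_ (by omega) (by norm_num)
      · intro e
        have := congrArg Prod.snd e
        simp at this
      · refine ⟨x.2, le_rfl, by simp, ?_⟩
        simp only [inv_mul_cancel, len_one]
        have : ((1 : ℕ) : ℤ) + x.2 + (x.2 - 1) - 2 * x.2 = 0 := by push_cast; ring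
        rw [this]
        simp
      · refine ⟨h - 1, by simp; omega, by omega, ?_⟩
        simp only
        rw [h1, inv_mul_cancel, len_one]
        have : 0 ≤ ((m - 1 : ℕ) : ℤ) + (x.2 - 1) + y.2 - 2 * (h - 1) := by
          have : ((m - 1 : ℕ) : ℤ) = (m : ℤ) - 1 := by
            rw [Nat.cast_sub (by omega)]; simp
          omega
        have h3 : (0 : ℝ) ≤ ((((m - 1 : ℕ) : ℤ) + (x.2 - 1) + y.2 - 2 * (h - 1) : ℤ) : ℝ) := by
          exact_mod_cast this
        positivity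
    · -- horizontal
      obtain ⟨c, hc⟩ : ∃ c : ℕ, (c : ℤ) = (m : ℤ) + x.2 + y.2 - 2 * h := ⟨_, Int.toNat_of_nonneg c0⟩
      obtain ⟨e, he⟩ : ∃ e : ℕ, (e : ℤ) = x.2 - y.2 := ⟨_, Int.toNat_of_nonneg (by omega)⟩
      rw [← hc] at hl
      have hc5 : c ≤ 5 := by
        by_contra hcon
        push Not at hcon
        have hrel : Rel x y (m - 1) := by
          refine ⟨h + 1, by omega, by omega, hl.trans ?_⟩
          have e1 : ((m - 1 : ℕ) : ℤ) + x.2 + y.2 - 2 * (h + 1) = c - 3 := by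
            have : ((m - 1 : ℕ) : ℤ) = (m : ℤ) - 1 := by
              rw [Nat.cast_sub (by omega)]; simp
            omega
          rw [e1, zpow_add₀ (by norm_num)]
          have h2 : (0 : ℝ) < 2 ^ h := by positivity
          have h3 : (6 : ℝ) ≤ c := by exact_mod_cast hcon
          push_cast
          nlinarith
        have := dV_le hrel
        omega
      refine crit (y.1, x.2) c e ?_ ?_ ?_ (by omega) hc5
      · intro e
        exact h1 (congrArg Prod.fst e).symm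
      · refine ⟨h, hx, by simp; omega, ?_⟩
        simp only
        refine hl.trans (le_of_eq ?_)
        have : (c : ℤ) + x.2 + x.2 - 2 * h = c := by omega
        rw [this]
      · refine ⟨h, by simp; omega, hy, ?_⟩
        simp only
        rw [inv_mul_cancel, len_one]
        have : (e : ℤ) + x.2 + y.2 - 2 * h = 0 := by omega
        rw [this]
        simp

/-- the vertex metric of the horoball -/
noncomputable def SV : StepMetric VV where
  d := dV
  d_self := dV_self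
  eq_of_d := fun _ _ h => eq_of_dV h
  symm := dV_symm
  tri := dV_tri
  R := 5
  step := dV_step

/-- hyperbolicity: scale function -/
theorem exists_scale (x y : VV) : ∃ H : ℤ, x.2 ≤ H ∧ y.2 ≤ H ∧ len (x.1⁻¹ * y.1) ≤ 2 ^ H ∧
    ∀ h : ℤ, x.2 ≤ h → y.2 ≤ h → len (x.1⁻¹ * y.1) ≤ 2 ^ h → H ≤ h := by
  obtain ⟨n, hn⟩ := pow_unbounded_of_one_lt (len (x.1⁻¹ * y.1)) (one_lt_two : (1 : ℝ) < 2)
  have hex : ∃ h : ℤ, x.2 ≤ h ∧ y.2 ≤ h ∧ len (x.1⁻¹ * y.1) ≤ 2 ^ h := by
    refine ⟨max (max x.2 y.2) n, (le_max_left _ _).trans (le_max_left _ _),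
      (le_max_right _ _).trans (le_max_left _ _), hn.le.trans ?_⟩
    rw [← zpow_natCast]
    exact zpow_le_zpow_right₀ one_le_two (le_max_right _ _)
  obtain ⟨H, ⟨h1, h2, h3⟩, h4⟩ := Int.exists_least_of_bdd
    (P := fun h : ℤ => x.2 ≤ h ∧ y.2 ≤ h ∧ len (x.1⁻¹ * y.1) ≤ 2 ^ h)
    ⟨x.2, fun z hz => hz.1⟩ hex
  exact ⟨H, h1, h2, h3, fun h a b c => h4 h ⟨a, b, c⟩⟩

/-- the scale -/
noncomputable def sc (x y : VV) : ℤ := Classical.choose (exists_scale x y)

theorem sc_spec (x y : VV) : x.2 ≤ sc x y ∧ y.2 ≤ sc x y ∧ len (x.1⁻¹ * y.1) ≤ 2 ^ (sc x y) ∧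
    ∀ h : ℤ, x.2 ≤ h → y.2 ≤ h → len (x.1⁻¹ * y.1) ≤ 2 ^ h → sc x y ≤ h :=
  Classical.choose_spec (exists_scale x y)

theorem len_symm (x y : NN) : len (y⁻¹ * x) = len (x⁻¹ * y) := by
  rw [← len_inv]
  congr 1
  group

theorem sc_symm (x y : VV) : sc x y = sc y x := by
  obtain ⟨a1, a2, a3, a4⟩ := sc_spec x y
  obtain ⟨b1, b2, b3, b4⟩ := sc_spec y x
  rw [len_symm] at b3
  have h1 := a4 _ b2 b1 b3
  have h2 := b4 _ a2 a1 (by rw [len_symm]; exact a3)
  exact le_antisymm h1 h2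

theorem sc_tri (x y z : VV) : sc x z ≤ max (sc x y) (sc y z) + 1 := by
  obtain ⟨a1, a2, a3, a4⟩ := sc_spec x y
  obtain ⟨b1, b2, b3, b4⟩ := sc_spec y z
  obtain ⟨c1, c2, c3, c4⟩ := sc_spec x z
  apply c4
  · have := le_max_left (sc x y) (sc y z); omega
  · have := le_max_right (sc x y) (sc y z); omega
  · have e : x.1⁻¹ * z.1 = (x.1⁻¹ * y.1) * (y.1⁻¹ * z.1) := by group
    rw [e, zpow_add₀ (by norm_num)]
    have p1 : (2 : ℝ) ^ (sc x y) ≤ 2 ^ (max (sc x y) (sc y z)) :=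
      zpow_le_zpow_right₀ one_le_two (le_max_left _ _)
    have p2 : (2 : ℝ) ^ (sc y z) ≤ 2 ^ (max (sc x y) (sc y z)) :=
      zpow_le_zpow_right₀ one_le_two (le_max_right _ _)
    have := len_mul (x.1⁻¹ * y.1) (y.1⁻¹ * z.1)
    rw [zpow_one]
    linarith

theorem dV_upper (x y : VV) : (dV x y : ℤ) ≤ 2 * sc x y + 1 - x.2 - y.2 := by
  obtain ⟨a1, a2, a3, a4⟩ := sc_spec x y
  obtain ⟨m, hm⟩ : ∃ m : ℕ, (m : ℤ) = 2 * sc x y + 1 - x.2 - y.2 :=
    ⟨_, Int.toNat_of_nonneg (by omega)⟩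
  rw [← hm]
  have : Rel x y m := by
    refine ⟨sc x y, a1, a2, a3.trans (le_of_eq ?_)⟩
    have : (m : ℤ) + x.2 + y.2 - 2 * sc x y = 1 := by omega
    rw [this]
    simp
  exact_mod_cast dV_le this

theorem two_mul_le_pow (k : ℕ) : 2 * k ≤ 2 ^ k := by
  induction k with
  | zero => norm_num
  | succ k ih =>
    rcases Nat.eq_zero_or_pos k with rfl | hk
    · norm_num
    · have : 2 ^ (k + 1) = 2 ^ k + 2 ^ k := by ring
      rw [this]
      have h2 : 2 ≤ 2 ^ k := by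
        calc 2 = 2 ^ 1 := by norm_num
          _ ≤ 2 ^ k := Nat.pow_le_pow_right (by norm_num) hk
      omega

theorem dV_lower (x y : VV) : 2 * sc x y - 2 ≤ (dV x y : ℤ) + x.2 + y.2 := by
  obtain ⟨a1, a2, a3, a4⟩ := sc_spec x y
  obtain ⟨h, hx, hy, hl⟩ := Rel_dV x y
  have c0 := coef_nonneg (len_nonneg _) hl
  rcases le_or_gt (sc x y) h with hh | hh
  · omega
  · -- h < sc
    have h1 : ¬ len (x.1⁻¹ * y.1) ≤ 2 ^ (sc x y - 1) := by
      intro h2
      have := a4 (sc x y - 1) (by omega) (by omega) h2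
      omega
    push Not at h1
    obtain ⟨k, hk⟩ : ∃ k : ℕ, (k : ℤ) = sc x y - 1 - h := ⟨_, Int.toNat_of_nonneg (by omega)⟩
    have h2 : (2 : ℝ) ^ (sc x y - 1) = 2 ^ k * 2 ^ h := by
      rw [← zpow_natCast, ← zpow_add₀ (by norm_num)]
      congr 1
      omega
    rw [h2] at h1
    have h3 : (0 : ℝ) < 2 ^ h := by positivity
    have h4 : (2 : ℝ) ^ k < (((dV x y : ℤ) + x.2 + y.2 - 2 * h : ℤ) : ℝ) :=
      lt_of_mul_lt_mul_right (h1.trans_le hl) h3.le
    have h5 : ((2 ^ k : ℕ) : ℤ) < (dV x y : ℤ) + x.2 + y.2 - 2 * h := by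
      have : (((2 ^ k : ℕ) : ℤ) : ℝ) < (((dV x y : ℤ) + x.2 + y.2 - 2 * h : ℤ) : ℝ) := by
        push_cast
        push_cast at h4
        exact h4
      exact_mod_cast this
    have h6 := two_mul_le_pow k
    have h7 : ((2 * k : ℕ) : ℤ) ≤ ((2 ^ k : ℕ) : ℤ) := by exact_mod_cast h6
    push_cast at h7 h5
    omega

/-- four point inequality on vertices -/
theorem dV_four (x y z w : VV) :
    (dV x z : ℤ) + dV y w ≤ max ((dV x y : ℤ) + dV z w) ((dV x w : ℤ) + dV y z) + 10 := by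
  have u1 := dV_upper x z
  have u2 := dV_upper y w
  have l1 := dV_lower x y
  have l2 := dV_lower z w
  have l3 := dV_lower x w
  have l4 := dV_lower y z
  have t1 := sc_tri x y z
  have t2 := sc_tri x w z
  have t3 := sc_tri y x w
  have t4 := sc_tri y z w
  rw [sc_symm w z] at t2
  rw [sc_symm y x] at t3
  omega

end Pool.Agent.Helper33.PH
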