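import Pool.Agent.Helper33.PH.Geod

set_option autoImplicit false

namespace Pool.Agent.Helper33.PH

open FreeGroup

/-- the free group on countably many generators -/
abbrev NN := FreeGroup ℤ

/-- weight of a word: the letter `k` has weight `2 ^ k` -/
noncomputable def wt (L : List (ℤ × Bool)) : ℝ := (L.map (fun p => (2 : ℝ) ^ p.1)).sum

/-- weighted length -/
noncomputable def len (n : NN) : ℝ := wt n.toWord

theorem wt_nil : wt [] = 0 := rfl

theorem wt_cons (a : ℤ × Bool) (L : List (ℤ × Bool)) : wt (a :: L) = (2 : ℝ) ^ a.1 + wt L := by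
  simp [wt]

theorem wt_append (L L' : List (ℤ × Bool)) : wt (L ++ L') = wt L + wt L' := by
  simp [wt]

theorem wt_nonneg (L : List (ℤ × Bool)) : 0 ≤ wt L := by
  induction L with
  | nil => simp [wt]
  | cons a L ih =>
    rw [wt_cons]
    positivity

theorem wt_sublist {L L' : List (ℤ × Bool)} (h : L.Sublist L') : wt L ≤ wt L' := by
  induction h with
  | slnil => exact le_rfl
  | cons a _ ih =>
    rw [wt_cons]
    have : (0 : ℝ) < 2 ^ a.1 := by positivity
    linarith
  | cons_cons a _ ih =>
    rw [wt_cons, wt_cons]
    linarith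

theorem wt_pos {L : List (ℤ × Bool)} (h : L ≠ []) : 0 < wt L := by
  cases L with
  | nil => exact absurd rfl h
  | cons a L =>
    rw [wt_cons]
    have h1 := wt_nonneg L
    have : (0 : ℝ) < 2 ^ a.1 := by positivity
    linarith

theorem len_one : len 1 = 0 := by simp [len, wt]

theorem len_nonneg (n : NN) : 0 ≤ len n := wt_nonneg _

theorem len_eq_zero {n : NN} (h : len n ≤ 0) : n = 1 := by
  by_contra hne
  have h1 : n.toWord ≠ [] := fun h2 => hne (toWord_eq_nil_iff.mp h2)
  have h2 : 0 < len n := wt_pos h1
  linarith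

theorem len_mul (n m : NN) : len (n * m) ≤ len n + len m := by
  unfold len
  rw [← wt_append]
  exact wt_sublist (toWord_mul_sublist n m)

theorem wt_invRev (L : List (ℤ × Bool)) : wt (invRev L) = wt L := by
  unfold wt invRev
  rw [List.map_reverse, List.sum_reverse, List.map_map]
  rfl

theorem len_inv (n : NN) : len n⁻¹ = len n := by
  unfold len
  rw [toWord_inv, wt_invRev]

/-- the shift automorphism -/
def shift (i : ℤ) : NN →* NN := FreeGroup.map (fun k => i + k)

theorem shift_of (i k : ℤ) : shift i (of k) = of (i + k) := map.of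

theorem shift_zero (n : NN) : shift 0 n = n := by
  have : shift 0 = MonoidHom.id NN := by
    ext k
    simp [shift_of]
  rw [this]
  rfl

theorem shift_shift (i j : ℤ) (n : NN) : shift i (shift j n) = shift (i + j) n := by
  have : (shift i).comp (shift j) = shift (i + j) := by
    ext k
    simp [shift_of, add_assoc]
  rw [← this]
  rfl

theorem wt_map_add (i : ℤ) (L : List (ℤ × Bool)) :
    wt (L.map fun p => (i + p.1, p.2)) = 2 ^ i * wt L := by
  induction L with
  | nil => simp [wt]
  | cons a L ih =>
    rw [List.map_cons, wt_cons, wt_cons, ih, mul_add]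
    congr 1
    rw [zpow_add₀ (by norm_num)]

theorem len_mk_le (L : List (ℤ × Bool)) : len (FreeGroup.mk L) ≤ wt L := by
  unfold len
  rw [toWord_mk]
  exact wt_sublist (Red.sublist reduce.red)

theorem len_shift_le (i : ℤ) (n : NN) : len (shift i n) ≤ 2 ^ i * len n := by
  have h1 : shift i n = FreeGroup.mk (n.toWord.map fun p => (i + p.1, p.2)) := by
    conv_lhs => rw [← mk_toWord (x := n)]
    exact map.mk
  rw [h1]
  refine (len_mk_le _).trans ?_
  rw [wt_map_add]
  exact le_rfl

theorem len_shift (i : ℤ) (n : NN) : len (shift i n) = 2 ^ i * len n := by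
  apply le_antisymm (len_shift_le i n)
  have h1 := len_shift_le (-i) (shift i n)
  rw [shift_shift, neg_add_cancel, shift_zero] at h1
  have h2 : (0 : ℝ) < 2 ^ i := by positivity
  calc 2 ^ i * len n ≤ 2 ^ i * (2 ^ (-i) * len (shift i n)) :=
        mul_le_mul_of_nonneg_left h1 h2.le
    _ = len (shift i n) := by
        rw [← mul_assoc, ← zpow_add₀ (by norm_num)]
        simp

/-- the flip automorphism -/
def flip : NN →* NN := FreeGroup.map (fun k => -k)

theorem flip_of (k : ℤ) : flip (of k) = of (-k) := map.of

theorem flip_flip (n : NN) : flip (flip n) = n := by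
  have : flip.comp flip = MonoidHom.id NN := by
    ext k
    simp [flip_of]
  calc flip (flip n) = (flip.comp flip) n := rfl
    _ = n := by rw [this]; rfl

theorem flip_shift (i : ℤ) (n : NN) : flip (shift i n) = shift (-i) (flip n) := by
  have : flip.comp (shift i) = (shift (-i)).comp flip := by
    ext k
    simp only [MonoidHom.comp_apply, shift_of, flip_of]
    congr 1
    ring
  calc flip (shift i n) = (flip.comp (shift i)) n := rfl
    _ = _ := by rw [this]; rfl

/-- the set of elements bounded in both length functions is finite -/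
theorem finite_len (C : ℝ) : {n : NN | len n ≤ C ∧ len (flip n) ≤ C}.Finite := by
  classical
  -- inverse weights
  have hflip : ∀ n : NN, wt (n.toWord.map fun p => (-p.1, p.2)) ≤ len (flip n) := by
    intro n
    have h1 : n = FreeGroup.mk ((flip n).toWord.map fun p => (-p.1, p.2)) := by
      conv_lhs => rw [← flip_flip n, ← mk_toWord (x := flip n)]
      exact map.mk
    have h2 : n.toWord.Sublist ((flip n).toWord.map fun p => (-p.1, p.2)) := by
      conv_lhs => rw [h1]
      rw [toWord_mk]
      exact Red.sublist reduce.red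
    have h3 := h2.map (fun p : ℤ × Bool => (-p.1, p.2))
    have h4 := wt_sublist h3
    refine h4.trans ?_
    unfold len
    rw [List.map_map]
    have : ((fun p : ℤ × Bool => (-p.1, p.2)) ∘ fun p : ℤ × Bool => (-p.1, p.2)) = id := by
      funext p
      simp
    rw [this, List.map_id]
  obtain ⟨K, hK⟩ := pow_unbounded_of_one_lt C (one_lt_two : (1 : ℝ) < 2)
  obtain ⟨M, hM⟩ := exists_nat_ge (2 * C)
  -- each letter has bounded index, and the number of letters is bounded
  have hletter : ∀ L : List (ℤ × Bool), wt L ≤ C → wt (L.map fun p => (-p.1, p.2)) ≤ C →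
      (∀ a ∈ L, a.1 ∈ Set.Icc (-(K : ℤ)) K) ∧ L.length ≤ M := by
    intro L h1 h2
    constructor
    · intro a ha
      have h3 : (2 : ℝ) ^ a.1 ≤ C := by
        have : [a].Sublist L := List.singleton_sublist.mpr ha
        have := wt_sublist this
        rw [wt_cons, wt_nil, add_zero] at this
        exact this.trans h1
      have h4 : (2 : ℝ) ^ (-a.1) ≤ C := by
        have : [((-a.1, a.2) : ℤ × Bool)].Sublist (L.map fun p => (-p.1, p.2)) :=
          List.singleton_sublist.mpr (List.mem_map.mpr ⟨a, ha, rfl⟩)
        have := wt_sublist this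
        rw [wt_cons, wt_nil, add_zero] at this
        exact this.trans h2
      have h5 : (2 : ℝ) ^ a.1 < 2 ^ (K : ℤ) := by
        rw [zpow_natCast]
        linarith
      have h6 : (2 : ℝ) ^ (-a.1) < 2 ^ (K : ℤ) := by
        rw [zpow_natCast]
        linarith
      have h7 := (zpow_lt_zpow_iff_right₀ (one_lt_two : (1 : ℝ) < 2)).mp h5
      have h8 := (zpow_lt_zpow_iff_right₀ (one_lt_two : (1 : ℝ) < 2)).mp h6
      constructor <;> omega
    · have key : ∀ L : List (ℤ × Bool), (L.length : ℝ) ≤ wt L + wt (L.map fun p => (-p.1, p.2)) := by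
        intro L
        induction L with
        | nil => simp [wt]
        | cons a L ih =>
          rw [List.map_cons, wt_cons, wt_cons, List.length_cons]
          push_cast
          have h3 : (1 : ℝ) ≤ 2 ^ a.1 + 2 ^ (-a.1) := by
            rcases le_total 0 a.1 with h | h
            · have h4 : (1 : ℝ) ≤ 2 ^ a.1 := one_le_zpow₀ one_le_two h
              have h5 : (0 : ℝ) < 2 ^ (-a.1) := by positivity
              linarith
            · have h4 : (1 : ℝ) ≤ 2 ^ (-a.1) := one_le_zpow₀ one_le_two (by omega)
              have h5 : (0 : ℝ) < 2 ^ (a.1) := by positivity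
              linarith
          change (L.length : ℝ) + 1 ≤ 2 ^ a.1 + wt L + (2 ^ (-a.1) + wt (L.map fun p => (-p.1, p.2)))
          linarith
      have := key L
      have h3 : (L.length : ℝ) ≤ M := by linarith
      exact_mod_cast h3
  -- finitely many such lists
  let α := (Set.Icc (-(K : ℤ)) K) × Bool
  have hfin : (Set.image (List.map (fun a : α => ((a.1 : ℤ), a.2)))
      {l : List α | l.length ≤ M}).Finite :=
    (List.finite_length_le α M).image _
  refine Set.Finite.of_finite_image (f := toWord) (hfin.subset ?_) toWord_injective.injOn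
  rintro _ ⟨n, ⟨h1, h2⟩, rfl⟩
  obtain ⟨h3, h4⟩ := hletter n.toWord h1 ((hflip n).trans h2)
  have : ∀ L : List (ℤ × Bool), (∀ a ∈ L, a.1 ∈ Set.Icc (-(K : ℤ)) K) →
      ∃ l : List α, l.map (fun a : α => ((a.1 : ℤ), a.2)) = L := by
    intro L
    induction L with
    | nil => exact fun _ => ⟨[], rfl⟩
    | cons a L ih =>
      intro h
      obtain ⟨l, hl⟩ := ih (fun b hb => h b (List.mem_cons_of_mem _ hb))
      exact ⟨(⟨a.1, h a (List.mem_cons_self)⟩, a.2) :: l, by rw [List.map_cons, hl]⟩
  obtain ⟨l, hl⟩ := this n.toWord h3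
  refine ⟨l, ?_, hl⟩
  have : l.length = n.toWord.length := by rw [← hl, List.length_map]
  change l.length ≤ M
  omega

end Pool.Agent.Helper33.PH
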